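import Pool.Agent.Helper17.RS.Sheet

/-! Row SVK: the number of members of the family K with `q ∣ A`, `q ∣ B`. -/

set_option autoImplicit false

namespace Pool.Helper17.RS

namespace SVK

open Polynomial

theorem fib_card (q : ℕ) (N : ℕ) (T : Finset ℕ) (hT : ∀ t ∈ T, t < N)
    (h : ∀ t ∈ T, ∀ t' ∈ T, t % q = t' % q) : T.card ≤ N / q + 1 := by
  have h1 : Set.MapsTo (fun t : ℕ => t / q) T (Finset.range (N / q + 1)) := by
    intro t ht
    show t / q ∈ ((Finset.range (N / q + 1) : Finset ℕ) : Set ℕ)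
    rw [Finset.mem_coe, Finset.mem_range]
    have := Nat.div_le_div_right (c := q) (hT t ht).le
    omega
  have h2 : Set.InjOn (fun t : ℕ => t / q) (T : Set ℕ) := by
    intro t ht t' ht' he
    have e1 : t / q = t' / q := he
    have e2 := h t ht t' ht'
    rw [← Nat.div_add_mod t q, ← Nat.div_add_mod t' q, e1, e2]
  have h3 := Finset.card_le_card_of_injOn (fun t : ℕ => t / q) h1 h2
  rwa [Finset.card_range] at h3

open Classical in
theorem cls_card (q : ℕ) [Fact q.Prime] (N : ℕ) (c M : ℤ) (hM : ((M : ℤ) : ZMod q) ≠ 0)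
    (S : Finset (ZMod q)) :
    ((Finset.range N).filter (fun t : ℕ => ((c + M * (t : ℤ) : ℤ) : ZMod q) ∈ S)).card ≤
      S.card * (N / q + 1) := by
  have hsub : (Finset.range N).filter (fun t : ℕ => ((c + M * (t : ℤ) : ℤ) : ZMod q) ∈ S) ⊆
      S.biUnion (fun s => (Finset.range N).filter
        (fun t : ℕ => ((c + M * (t : ℤ) : ℤ) : ZMod q) = s)) := by
    intro t ht
    rw [Finset.mem_filter] at ht
    rw [Finset.mem_biUnion]
    exact ⟨_, ht.2, Finset.mem_filter.2 ⟨ht.1, rfl⟩⟩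
  refine (Finset.card_le_card hsub).trans (Finset.card_biUnion_le_card_mul _ _ _ ?_)
  intro s _
  apply fib_card q N
  · intro t ht
    exact Finset.mem_range.1 (Finset.mem_filter.1 ht).1
  · intro t ht t' ht'
    have e1 := (Finset.mem_filter.1 ht).2
    have e2 := (Finset.mem_filter.1 ht').2
    rw [← e2] at e1
    push_cast at e1
    have e3 : ((M : ℤ) : ZMod q) * (t : ZMod q) = ((M : ℤ) : ZMod q) * (t' : ZMod q) := by
      linear_combination e1
    have e4 := mul_left_cancel₀ hM e3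
    rwa [ZMod.natCast_eq_natCast_iff'] at e4

section Field

variable {F : Type*} [Field F]

/-- the quartic for `U` -/
noncomputable def PP (W : F) : F[X] :=
  C 7558272 * X ^ 4 + C (3894749568 * W) * X ^ 3 + C (149892291072 * W ^ 2) * X ^ 2 +
    C (189873030528 * W ^ 3) * X + C (818590810752 * W ^ 4)

theorem PP_deg (W : F) : (PP W).natDegree ≤ 4 := by
  unfold PP
  compute_degree

theorem PP_coeff (W : F) : (PP W).coeff 4 = 7558272 := by
  unfold PP
  compute_degree!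

theorem PP_ne (h6 : (6 : F) ≠ 0) (W : F) : PP W ≠ 0 := by
  intro h
  have h1 := PP_coeff W
  rw [h, coeff_zero] at h1
  have h2 : (2 : F) ≠ 0 := by
    intro h0
    apply h6
    linear_combination 3 * h0
  have h3 : (3 : F) ≠ 0 := by
    intro h0
    apply h6
    linear_combination 2 * h0
  have h4 : (2 : F) ^ 7 * 3 ^ 10 ≠ 0 := mul_ne_zero (pow_ne_zero _ h2) (pow_ne_zero _ h3)
  apply h4
  rw [show (2 : F) ^ 7 * 3 ^ 10 = 7558272 by norm_num]
  exact h1.symm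

variable [DecidableEq F]

theorem PP_card (W : F) : (PP W).roots.toFinset.card ≤ 4 :=
  (Multiset.toFinset_card_le _).trans ((card_roots' _).trans (PP_deg W))

/-- the solutions of `3 x ^ 2 + k x + m = 0` -/
noncomputable def q2 (k m : F) : Finset F := (C 3 * X ^ 2 + C k * X + C m : F[X]).roots.toFinset

theorem q2_deg (k m : F) : (C 3 * X ^ 2 + C k * X + C m : F[X]).natDegree ≤ 2 := by
  compute_degree

theorem q2_ne (h3 : (3 : F) ≠ 0) (k m : F) : (C 3 * X ^ 2 + C k * X + C m : F[X]) ≠ 0 := by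
  intro h
  have h1 : (C 3 * X ^ 2 + C k * X + C m : F[X]).coeff 2 = 3 := by
    compute_degree!
  rw [h, coeff_zero] at h1
  exact h3 h1.symm

theorem q2_card (k m : F) : (q2 k m).card ≤ 2 :=
  (Multiset.toFinset_card_le _).trans ((card_roots' _).trans (q2_deg k m))

theorem mem_q2 (h3 : (3 : F) ≠ 0) (k m x : F) (h : 3 * x ^ 2 + k * x + m = 0) : x ∈ q2 k m := by
  unfold q2
  rw [Multiset.mem_toFinset, mem_roots (q2_ne h3 k m)]
  simpa [IsRoot] using h

/-- the classes of `u` -/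
noncomputable def SS (w : F) : Finset F :=
  (PP (w ^ 2)).roots.toFinset.biUnion fun c => q2 0 (-(3 * c))

theorem SS_card (w : F) : (SS w).card ≤ 8 := by
  refine (Finset.card_biUnion_le_card_mul _ _ 2 fun c _ => q2_card _ _).trans ?_
  have := PP_card (w ^ 2)
  omega

/-- the classes of `v` -/
noncomputable def RR (w u : F) : Finset F :=
  (q2 (-(6 * u ^ 2 + 1062 * w ^ 2)) (3 * u ^ 4 + 22122 * u ^ 2 * w ^ 2 + 139347 * w ^ 4)).biUnion
    fun c => q2 0 (-(3 * c))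

theorem RR_card (w u : F) : (RR w u).card ≤ 4 := by
  refine (Finset.card_biUnion_le_card_mul _ _ 2 fun c _ => q2_card _ _).trans ?_
  have := q2_card (-(6 * u ^ 2 + 1062 * w ^ 2))
    (3 * u ^ 4 + 22122 * u ^ 2 * w ^ 2 + 139347 * w ^ 4)
  omega

theorem main (h6 : (6 : F) ≠ 0) (u v w : F) (hw : w ≠ 0)
    (hA : -3 * u ^ 4 + 6 * u ^ 2 * v ^ 2 - 22122 * u ^ 2 * w ^ 2 - 3 * v ^ 4 +
      1062 * v ^ 2 * w ^ 2 - 139347 * w ^ 4 = 0)
    (hB : -2 * u ^ 6 + 6 * u ^ 4 * v ^ 2 + 41382 * u ^ 4 * w ^ 2 - 6 * u ^ 2 * v ^ 4 +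
      6012 * u ^ 2 * v ^ 2 * w ^ 2 + 6706746 * u ^ 2 * w ^ 4 + 2 * v ^ 6 - 738 * v ^ 4 * w ^ 2 -
      9666 * v ^ 2 * w ^ 4 + 12154914 * w ^ 6 = 0) :
    u ∈ SS w ∧ v ∈ RR w u := by
  have h3 : (3 : F) ≠ 0 := by
    intro h0
    apply h6
    linear_combination 2 * h0
  constructor
  · unfold SS
    rw [Finset.mem_biUnion]
    refine ⟨u ^ 2, ?_, mem_q2 h3 _ _ _ (by ring)⟩
    rw [Multiset.mem_toFinset, mem_roots (PP_ne h6 _)]
    show (PP _).eval (u ^ 2) = 0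
    unfold PP
    simp only [eval_add, eval_mul, eval_pow, eval_C, eval_X]
    have hw4 : w ^ 4 ≠ 0 := pow_ne_zero _ hw
    apply (mul_eq_zero.mp (?_ : w ^ 4 * _ = 0)).resolve_left hw4
    linear_combination
      (-(86 * u ^ 6 * w ^ 2 - 64 * u ^ 4 * v ^ 2 * w ^ 2 + 113774 * u ^ 4 * w ^ 4 -
        22 * u ^ 2 * v ^ 4 * w ^ 2 - 7348 * u ^ 2 * v ^ 2 * w ^ 4 + 2547762 * u ^ 2 * w ^ 6 -
        262 * v ^ 4 * w ^ 4 + 65316 * v ^ 2 * w ^ 6 + 13906314 * w ^ 8)) * hA -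
      (-129 * u ^ 4 * w ^ 2 - 33 * u ^ 2 * v ^ 2 * w ^ 2 - 11910 * u ^ 2 * w ^ 4 -
        393 * v ^ 2 * w ^ 4 + 92079 * w ^ 6) * hB
  · unfold RR
    rw [Finset.mem_biUnion]
    refine ⟨v ^ 2, ?_, mem_q2 h3 _ _ _ (by ring)⟩
    apply mem_q2 h3
    linear_combination -hA

theorem main0 (h6 : (6 : F) ≠ 0) (u v : F)
    (hA : -3 * u ^ 4 + 6 * u ^ 2 * v ^ 2 - 3 * v ^ 4 = 0) : v ∈ q2 0 (-(3 * u ^ 2)) := by
  have h3 : (3 : F) ≠ 0 := by
    intro h0
    apply h6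
    linear_combination 2 * h0
  apply mem_q2 h3
  have h1 : 3 * (u ^ 2 - v ^ 2) ^ 2 = 0 := by linear_combination -hA
  have h2 : (u ^ 2 - v ^ 2) ^ 2 = 0 := (mul_eq_zero.mp h1).resolve_left h3
  have h4 : u ^ 2 - v ^ 2 = 0 := pow_eq_zero_iff (two_ne_zero) |>.mp h2
  linear_combination -3 * h4

end Field

end SVK

open Classical in
theorem st_SVK : ST_SVK := by
  intro N q hq hq1
  haveI : Fact q.Prime := ⟨hq⟩
  have hM : ((MM : ℤ) : ZMod q) ≠ 0 := by
    intro h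
    have h1 := (ZMod.intCast_zmod_eq_zero_iff_dvd _ _).1 h
    unfold MM at h1
    have h2 : q ∣ Nat.factorial 1000 := by exact_mod_cast h1
    rw [hq.dvd_factorial] at h2
    omega
  have h6 : (6 : ZMod q) ≠ 0 := by
    intro h
    have h1 : ((6 : ℕ) : ZMod q) = 0 := by exact_mod_cast h
    rw [ZMod.natCast_eq_zero_iff] at h1
    have := Nat.le_of_dvd (by norm_num) h1
    omega
  -- the residue of a parameter
  set res : Fin 3 → ℕ → ZMod q := fun i t => ((kb i + MM * (t : ℤ) : ℤ) : ZMod q) with hres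
  have hyy : ∀ (t : Fin 3 → ℕ) (i : Fin 3), ((yy kb t i : ℤ) : ZMod q) = res i (t i) := by
    intro t i
    rfl
  set P : (Fin 3 → ℕ) → Prop := fun t => (q : ℤ) ∣ kAy (yy kb t) ∧ (q : ℤ) ∣ kBy (yy kb t) with hP
  have hAB : ∀ t, P t →
      (-3 * res 0 (t 0) ^ 4 + 6 * res 0 (t 0) ^ 2 * res 1 (t 1) ^ 2 -
        22122 * res 0 (t 0) ^ 2 * res 2 (t 2) ^ 2 - 3 * res 1 (t 1) ^ 4 +
        1062 * res 1 (t 1) ^ 2 * res 2 (t 2) ^ 2 - 139347 * res 2 (t 2) ^ 4 = 0) ∧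
      (-2 * res 0 (t 0) ^ 6 + 6 * res 0 (t 0) ^ 4 * res 1 (t 1) ^ 2 +
        41382 * res 0 (t 0) ^ 4 * res 2 (t 2) ^ 2 - 6 * res 0 (t 0) ^ 2 * res 1 (t 1) ^ 4 +
        6012 * res 0 (t 0) ^ 2 * res 1 (t 1) ^ 2 * res 2 (t 2) ^ 2 +
        6706746 * res 0 (t 0) ^ 2 * res 2 (t 2) ^ 4 + 2 * res 1 (t 1) ^ 6 -
        738 * res 1 (t 1) ^ 4 * res 2 (t 2) ^ 2 - 9666 * res 1 (t 1) ^ 2 * res 2 (t 2) ^ 4 +
        12154914 * res 2 (t 2) ^ 6 = 0) := by
    intro t ht
    obtain ⟨h1, h2⟩ := ht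
    have h1' : ((kAy (yy kb t) : ℤ) : ZMod q) = 0 := (ZMod.intCast_zmod_eq_zero_iff_dvd _ _).2 h1
    have h2' : ((kBy (yy kb t) : ℤ) : ZMod q) = 0 := (ZMod.intCast_zmod_eq_zero_iff_dvd _ _).2 h2
    unfold kAy kA at h1'
    unfold kBy kB at h2'
    push_cast at h1' h2'
    rw [hyy, hyy, hyy] at h1' h2'
    exact ⟨h1', h2'⟩
  -- two counts
  have hsplit : (Box N).filter P ⊆
      ((Box N).filter (fun t => P t ∧ res 2 (t 2) = 0)) ∪
        ((Box N).filter (fun t => P t ∧ res 2 (t 2) ≠ 0)) := by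
    intro t ht
    rw [Finset.mem_filter] at ht
    rw [Finset.mem_union, Finset.mem_filter, Finset.mem_filter]
    by_cases h : res 2 (t 2) = 0
    · exact Or.inl ⟨ht.1, ht.2, h⟩
    · exact Or.inr ⟨ht.1, ht.2, h⟩
  -- the case `q ∣ w`
  have hcard1 : ((Box N).filter (fun t => P t ∧ res 2 (t 2) = 0)).card ≤
      2 * (N / q + 1) ^ 2 * N := by
    set T : Finset ℕ := (Finset.range N).filter
      (fun t : ℕ => ((kb 2 + MM * (t : ℤ) : ℤ) : ZMod q) ∈ ({0} : Finset (ZMod q))) with hT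
    set B : ℕ → Finset ℕ := fun x => (Finset.range N).filter
      (fun t : ℕ => ((kb 1 + MM * (t : ℤ) : ℤ) : ZMod q) ∈ SVK.q2 0 (-(3 * res 0 x ^ 2))) with hB
    set U : Finset (Σ _ : ℕ × ℕ, ℕ) := (T ×ˢ Finset.range N).sigma (fun p => B p.2) with hU
    have hTc : T.card ≤ 1 * (N / q + 1) := by
      have := SVK.cls_card q N (kb 2) MM hM {0}
      rwa [Finset.card_singleton] at this
    have hBc : ∀ x, (B x).card ≤ 2 * (N / q + 1) := fun x =>
      (SVK.cls_card q N _ _ hM _).trans (Nat.mul_le_mul_right _ (SVK.q2_card _ _))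
    have hUc : U.card ≤ 2 * (N / q + 1) ^ 2 * N := by
      rw [hU, Finset.card_sigma]
      refine (Finset.sum_le_card_nsmul _ _ _ fun p _ => hBc p.2).trans ?_
      rw [smul_eq_mul, Finset.card_product, Finset.card_range]
      calc T.card * N * (2 * (N / q + 1)) ≤ (1 * (N / q + 1)) * N * (2 * (N / q + 1)) :=
            Nat.mul_le_mul_right _ (Nat.mul_le_mul_right _ hTc)
        _ = 2 * (N / q + 1) ^ 2 * N := by ring
    refine le_trans ?_ hUc
    apply Finset.card_le_card_of_injOn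
      (fun t : Fin 3 → ℕ => (⟨(t 2, t 0), t 1⟩ : Σ _ : ℕ × ℕ, ℕ))
    · intro t ht
      rw [Finset.coe_filter] at ht
      obtain ⟨ht1, ht2, ht3⟩ := ht
      unfold Box at ht1
      rw [Fintype.mem_piFinset] at ht1
      show (⟨(t 2, t 0), t 1⟩ : Σ _ : ℕ × ℕ, ℕ) ∈ (U : Set _)
      rw [Finset.mem_coe, hU, Finset.mem_sigma]
      refine ⟨?_, ?_⟩
      · rw [Finset.mem_product]
        refine ⟨Finset.mem_filter.2 ⟨ht1 2, ?_⟩, ht1 0⟩
        rw [Finset.mem_singleton]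
        exact ht3
      · refine Finset.mem_filter.2 ⟨ht1 1, ?_⟩
        obtain ⟨h1, _⟩ := hAB t ht2
        rw [ht3] at h1
        exact SVK.main0 h6 (res 0 (t 0)) (res 1 (t 1)) (by linear_combination h1)
    · intro t _ t' _ he
      simp only [Sigma.mk.injEq, Prod.mk.injEq, heq_eq_eq] at he
      obtain ⟨⟨h2, h0⟩, h1⟩ := he
      funext i
      fin_cases i
      · exact h0
      · exact h1
      · exact h2
  -- the case `q ∤ w`
  have hcard2 : ((Box N).filter (fun t => P t ∧ res 2 (t 2) ≠ 0)).card ≤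
      32 * (N / q + 1) ^ 2 * N := by
    set A : ℕ → Finset ℕ := fun z => (Finset.range N).filter
      (fun t : ℕ => ((kb 0 + MM * (t : ℤ) : ℤ) : ZMod q) ∈ SVK.SS (res 2 z)) with hA
    set B : ℕ → ℕ → Finset ℕ := fun z x => (Finset.range N).filter
      (fun t : ℕ => ((kb 1 + MM * (t : ℤ) : ℤ) : ZMod q) ∈ SVK.RR (res 2 z) (res 0 x)) with hB
    set U : Finset (Σ _ : ℕ, Σ _ : ℕ, ℕ) :=
      (Finset.range N).sigma (fun z => (A z).sigma (fun x => B z x)) with hU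
    have hAc : ∀ z, (A z).card ≤ 8 * (N / q + 1) := fun z =>
      (SVK.cls_card q N _ _ hM _).trans (Nat.mul_le_mul_right _ (SVK.SS_card _))
    have hBc : ∀ z x, (B z x).card ≤ 4 * (N / q + 1) := fun z x =>
      (SVK.cls_card q N _ _ hM _).trans (Nat.mul_le_mul_right _ (SVK.RR_card _ _))
    have hUc : U.card ≤ 32 * (N / q + 1) ^ 2 * N := by
      rw [hU, Finset.card_sigma]
      have h1 : ∀ z ∈ Finset.range N,
          ((A z).sigma (fun x => B z x)).card ≤ 32 * (N / q + 1) ^ 2 := by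
        intro z _
        rw [Finset.card_sigma]
        refine (Finset.sum_le_card_nsmul _ _ (4 * (N / q + 1)) fun x _ => hBc z x).trans ?_
        rw [smul_eq_mul]
        refine (Nat.mul_le_mul_right _ (hAc z)).trans (le_of_eq ?_)
        ring
      refine (Finset.sum_le_card_nsmul _ _ _ h1).trans (le_of_eq ?_)
      rw [smul_eq_mul, Finset.card_range]
      ring
    refine le_trans ?_ hUc
    apply Finset.card_le_card_of_injOn
      (fun t : Fin 3 → ℕ => (⟨t 2, ⟨t 0, t 1⟩⟩ : Σ _ : ℕ, Σ _ : ℕ, ℕ))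
    · intro t ht
      rw [Finset.coe_filter] at ht
      obtain ⟨ht1, ht2, ht3⟩ := ht
      unfold Box at ht1
      rw [Fintype.mem_piFinset] at ht1
      obtain ⟨h1, h2⟩ := hAB t ht2
      obtain ⟨m1, m2⟩ := SVK.main h6 _ _ _ ht3 h1 h2
      show (⟨t 2, ⟨t 0, t 1⟩⟩ : Σ _ : ℕ, Σ _ : ℕ, ℕ) ∈ (U : Set _)
      rw [Finset.mem_coe, hU, Finset.mem_sigma]
      refine ⟨ht1 2, ?_⟩
      rw [Finset.mem_sigma]
      exact ⟨Finset.mem_filter.2 ⟨ht1 0, m1⟩, Finset.mem_filter.2 ⟨ht1 1, m2⟩⟩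
    · intro t _ t' _ he
      simp only [Sigma.mk.injEq, heq_eq_eq] at he
      obtain ⟨h2, h0, h1⟩ := he
      funext i
      fin_cases i
      · exact h0
      · exact h1
      · exact h2
  calc ((Box N).filter P).card ≤ _ := Finset.card_le_card hsplit
    _ ≤ _ := Finset.card_union_le _ _
    _ ≤ 2 * (N / q + 1) ^ 2 * N + 32 * (N / q + 1) ^ 2 * N := Nat.add_le_add hcard1 hcard2
    _ = 34 * ((N / q + 1) ^ 2 * N) := by ring
    _ ≤ 50 * ((N / q + 1) ^ 2 * N) := Nat.mul_le_mul_right _ (by norm_num)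
    _ = 50 * (N / q + 1) ^ 2 * N := by ring

end Pool.Helper17.RS
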