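import Mathlib

/-!
# MP_7ef5a1_co: free amalgam of copies of `H - v₀`

`W = Fin w`; for every set `T` of `d` elements of `W` a private copy of `H - v₀` is glued along a
bijection of the neighbourhood of `v₀` with `T`.
-/

set_option autoImplicit false
open Classical

namespace Pool.Agent.Helper28.RS

variable {m w : ℕ}

/-- triangle-free -/
def TF (H : SimpleGraph (Fin m)) : Prop := ∀ a b c, H.Adj a b → H.Adj b c → ¬ H.Adj a c

theorem TF_of_cliqueFree (H : SimpleGraph (Fin m)) (h : H.CliqueFree 3) : TF H := by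
  intro a b c hab hbc hac
  exact h {a, b, c} (SimpleGraph.is3Clique_triple_iff.2 ⟨hab, hac, hbc⟩)

/-- the map of the copy with index `T` -/
noncomputable def gm (H : SimpleGraph (Fin m)) (v0 : Fin m) (β : Finset (Fin w) → Fin m → Fin w)
    (T : Finset (Fin w)) (u : Fin m) : Fin w ⊕ (Finset (Fin w) × Fin m) :=
  if H.Adj v0 u then Sum.inl (β T u) else Sum.inr (T, u)

/-- the free amalgam -/
def amal (H : SimpleGraph (Fin m)) (v0 : Fin m) (d : ℕ) (β : Finset (Fin w) → Fin m → Fin w) :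
    SimpleGraph (Fin w ⊕ (Finset (Fin w) × Fin m)) where
  Adj := fun a b => a ≠ b ∧ ∃ (T : Finset (Fin w)) (u v : Fin m), T.card = d ∧ H.Adj u v ∧
    u ≠ v0 ∧ v ≠ v0 ∧ gm H v0 β T u = a ∧ gm H v0 β T v = b
  symm := ⟨fun a b h => by
    obtain ⟨h0, T, u, v, h1, h2, h3, h4, h5, h6⟩ := h
    exact ⟨h0.symm, T, v, u, h1, h2.symm, h4, h3, h6, h5⟩⟩
  loopless := ⟨fun a h => h.1 rfl⟩

/-- `β T` is a bijection of the neighbourhood of `v0` with `T` -/
def Bet (H : SimpleGraph (Fin m)) (v0 : Fin m) (d : ℕ) (β : Finset (Fin w) → Fin m → Fin w) :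
    Prop :=
  ∀ T : Finset (Fin w), T.card = d → (∀ u, H.Adj v0 u → β T u ∈ T) ∧
    (∀ u u', H.Adj v0 u → H.Adj v0 u' → β T u = β T u' → u = u') ∧
    ∀ i ∈ T, ∃ u, H.Adj v0 u ∧ β T u = i

theorem exists_bet (H : SimpleGraph (Fin m)) (v0 : Fin m) (hw : 0 < w) :
    ∃ β : Finset (Fin w) → Fin m → Fin w, Bet H v0 (H.degree v0) β := by
  have h : ∀ T : Finset (Fin w), ∃ b : Fin m → Fin w, T.card = H.degree v0 →
      (∀ u, H.Adj v0 u → b u ∈ T) ∧
      (∀ u u', H.Adj v0 u → H.Adj v0 u' → b u = b u' → u = u') ∧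
      ∀ i ∈ T, ∃ u, H.Adj v0 u ∧ b u = i := by
    intro T
    by_cases hT : T.card = H.degree v0
    · have hc : (H.neighborFinset v0).card = T.card := by
        rw [SimpleGraph.card_neighborFinset_eq_degree, hT]
      have e : {x // x ∈ H.neighborFinset v0} ≃ {x // x ∈ T} := Finset.equivOfCardEq hc
      refine ⟨fun u => if h : u ∈ H.neighborFinset v0 then (e ⟨u, h⟩).1 else ⟨0, hw⟩, fun _ => ?_⟩
      refine ⟨?_, ?_, ?_⟩
      · intro u hu
        have hu' : u ∈ H.neighborFinset v0 := (SimpleGraph.mem_neighborFinset _ _ _).2 hu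
        simp only [dif_pos hu']
        exact (e ⟨u, hu'⟩).2
      · intro u u' hu hu' hb
        have h1 : u ∈ H.neighborFinset v0 := (SimpleGraph.mem_neighborFinset _ _ _).2 hu
        have h2 : u' ∈ H.neighborFinset v0 := (SimpleGraph.mem_neighborFinset _ _ _).2 hu'
        simp only [dif_pos h1, dif_pos h2] at hb
        have := e.injective (Subtype.ext hb)
        exact congrArg Subtype.val this
      · intro i hi
        obtain ⟨x, hx⟩ := e.surjective ⟨i, hi⟩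
        refine ⟨x.1, (SimpleGraph.mem_neighborFinset _ _ _).1 x.2, ?_⟩
        simp only [dif_pos x.2]
        rw [show (⟨x.1, x.2⟩ : {x // x ∈ H.neighborFinset v0}) = x from rfl, hx]
    · exact ⟨fun _ => ⟨0, hw⟩, fun h => absurd h hT⟩
  choose β hβ using h
  exact ⟨β, fun T hT => hβ T hT⟩

section facts

variable {H : SimpleGraph (Fin m)} {v0 : Fin m} {d : ℕ} {β : Finset (Fin w) → Fin m → Fin w}

theorem gm_inl {T : Finset (Fin w)} {u : Fin m} {i : Fin w} (h : gm H v0 β T u = Sum.inl i) :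
    H.Adj v0 u ∧ β T u = i := by
  unfold gm at h
  by_cases hu : H.Adj v0 u
  · rw [if_pos hu] at h
    exact ⟨hu, Sum.inl.inj h⟩
  · rw [if_neg hu] at h
    exact absurd h (by simp)

theorem gm_inr {T T' : Finset (Fin w)} {u p : Fin m} (h : gm H v0 β T u = Sum.inr (T', p)) :
    ¬ H.Adj v0 u ∧ T = T' ∧ u = p := by
  unfold gm at h
  by_cases hu : H.Adj v0 u
  · rw [if_pos hu] at h
    exact absurd h (by simp)
  · rw [if_neg hu] at h
    have := Sum.inr.inj h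
    exact ⟨hu, congrArg Prod.fst this, congrArg Prod.snd this⟩

theorem gm_inj (hβ : Bet H v0 d β) {T : Finset (Fin w)} (hT : T.card = d) {u v : Fin m}
    (h : gm H v0 β T u = gm H v0 β T v) : u = v := by
  cases hu : gm H v0 β T u with
  | inl i =>
    rw [hu] at h
    obtain ⟨h1, h2⟩ := gm_inl hu
    obtain ⟨h3, h4⟩ := gm_inl h.symm
    exact (hβ T hT).2.1 u v h1 h3 (h2.trans h4.symm)
  | inr p =>
    rw [hu] at h
    obtain ⟨T', p⟩ := p
    obtain ⟨_, _, h2⟩ := gm_inr hu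
    obtain ⟨_, _, h4⟩ := gm_inr h.symm
    exact h2.trans h4.symm

/-- `W` is independent -/
theorem amal_ll (htf : TF H) {i j : Fin w} : ¬ (amal H v0 d β).Adj (Sum.inl i) (Sum.inl j) := by
  rintro ⟨_, T, u, v, _, huv, _, _, h1, h2⟩
  exact htf v0 u v (gm_inl h1).1 huv (gm_inl h2).1

/-- edges inside a private part -/
theorem amal_rr {T T' : Finset (Fin w)} {p q : Fin m}
    (h : (amal H v0 d β).Adj (Sum.inr (T, p)) (Sum.inr (T', q))) :
    T = T' ∧ T.card = d ∧ H.Adj p q ∧ p ≠ v0 ∧ ¬ H.Adj v0 p ∧ q ≠ v0 ∧ ¬ H.Adj v0 q := by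
  obtain ⟨_, T1, u, v, hT, huv, hu, hv, h1, h2⟩ := h
  obtain ⟨a1, a2, a3⟩ := gm_inr h1
  obtain ⟨b1, b2, b3⟩ := gm_inr h2
  subst a2 a3 b2 b3
  exact ⟨rfl, hT, huv, hu, a1, hv, b1⟩

/-- edges between a private part and `W` -/
theorem amal_rl (hβ : Bet H v0 d β) {T : Finset (Fin w)} {p : Fin m} {i : Fin w}
    (h : (amal H v0 d β).Adj (Sum.inr (T, p)) (Sum.inl i)) :
    T.card = d ∧ i ∈ T ∧ p ≠ v0 ∧ ¬ H.Adj v0 p ∧ ∃ q, H.Adj v0 q ∧ β T q = i ∧ H.Adj p q := by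
  obtain ⟨_, T1, u, v, hT, huv, hu, hv, h1, h2⟩ := h
  obtain ⟨a1, a2, a3⟩ := gm_inr h1
  obtain ⟨b1, b2⟩ := gm_inl h2
  subst a2 a3
  exact ⟨hT, b2 ▸ (hβ _ hT).1 v b1, hu, a1, v, b1, b2, huv⟩

/-- the neighbours of a private vertex -/
theorem amal_nbr (hβ : Bet H v0 d β) {T : Finset (Fin w)} {p : Fin m}
    {b : Fin w ⊕ (Finset (Fin w) × Fin m)}
    (h : (amal H v0 d β).Adj (Sum.inr (T, p)) b) :
    T.card = d ∧ p ≠ v0 ∧ ¬ H.Adj v0 p ∧ ∃ q, H.Adj p q ∧ gm H v0 β T q = b := by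
  obtain ⟨_, T1, u, v, hT, huv, hu, hv, h1, h2⟩ := h
  obtain ⟨a1, a2, a3⟩ := gm_inr h1
  subst a2 a3
  exact ⟨hT, hu, a1, v, huv, h2⟩

theorem amal_adj (hβ : Bet H v0 d β) {T : Finset (Fin w)} (hT : T.card = d) {u v : Fin m}
    (h : H.Adj u v) (hu : u ≠ v0) (hv : v ≠ v0) :
    (amal H v0 d β).Adj (gm H v0 β T u) (gm H v0 β T v) :=
  ⟨fun h' => h.ne (gm_inj hβ hT h'), T, u, v, hT, h, hu, hv, rfl, rfl⟩

end facts

end Pool.Agent.Helper28.RS
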