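import Pool.Agent.Helper82.RS3.FIN

/-!
# MP_7ef5a1_co: an exact criterion for 3-connected graphs
-/

set_option autoImplicit false
open Classical

namespace Pool.Agent.Helper28.RS

open Pool.Agent.Helper77.SND (Good Force fin_cc C3)
open Pool.Agent.Helper58.RS (DSet Ram closure)

variable {m : ℕ}

/-- the graph `K` does not contain `H` -/
def Free' {n : ℕ} (H : SimpleGraph (Fin m)) (K : SimpleGraph (Fin n)) : Prop :=
  ¬ ∃ f : Fin m → Fin n, Function.Injective f ∧ ∀ u v, H.Adj u v → K.Adj (f u) (f v)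

/-- a new vertex joined to `T` completes a copy of `H` -/
def Cr {n : ℕ} (H : SimpleGraph (Fin m)) (K : SimpleGraph (Fin n)) (T : Finset (Fin n)) : Prop :=
  ∃ (v0 : Fin m) (f : Fin m → Fin n), (∀ u v, u ≠ v0 → v ≠ v0 → f u = f v → u = v) ∧
    (∀ u v, u ≠ v0 → v ≠ v0 → H.Adj u v → K.Adj (f u) (f v)) ∧ ∀ u, H.Adj v0 u → f u ∈ T

/-- the criterion -/
def DCrit (H : SimpleGraph (Fin m)) : Prop :=
  ∃ (n : ℕ) (K : Fin 2 → SimpleGraph (Fin n)) (W : Finset (Fin n)),
    W.card = 2 * (H.minDegree - 1) + 1 ∧ (∀ x y, (K 0).Adj x y → ¬ (K 1).Adj x y) ∧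
    ∀ i, Free' H (K i) ∧ ∀ T ⊆ W, T.card = H.minDegree → Cr H (K i) T

theorem iff_pigeon {n : ℕ} (W : Finset (Fin n)) (δ : ℕ) (hD : W.card = 2 * (δ - 1) + 1)
    (col : Fin n → Fin 2) :
    ∃ (b : Bool) (T : Finset (Fin n)), T ⊆ W ∧ T.card = δ ∧ ∀ k ∈ T, col k = fin_cc b := by
  have h := Finset.card_filter_add_card_filter_not (s := W) (fun k => col k = fin_cc true)
  by_cases h1 : δ ≤ (W.filter (fun k => col k = fin_cc true)).card
  · obtain ⟨T, hT, hT2⟩ := Finset.exists_subset_card_eq h1
    exact ⟨true, T, hT.trans (Finset.filter_subset _ _), hT2,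
      fun k hk => (Finset.mem_filter.1 (hT hk)).2⟩
  · have h2 : δ ≤ (W.filter (fun k => ¬ col k = fin_cc true)).card := by omega
    obtain ⟨T, hT, hT2⟩ := Finset.exists_subset_card_eq h2
    refine ⟨false, T, hT.trans (Finset.filter_subset _ _), hT2, fun k hk => ?_⟩
    have h3 := (Finset.mem_filter.1 (hT hk)).2
    have key : ∀ c : Fin 2, ¬ c = fin_cc true → c = fin_cc false := by decide
    exact key _ h3

theorem iff_back (H : SimpleGraph (Fin m)) (hm : 4 ≤ m) (hδ : 1 ≤ H.minDegree)
    (hF : Force H) (hcrit : DCrit H) : sInf (DSet H) = 2 * (H.minDegree - 1) + 1 := by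
  obtain ⟨n, K, W, hW, hdis, hK⟩ := hcrit
  obtain ⟨κ, hκ⟩ : ∃ κ : Sym2 (Fin n) → Bool, ∀ z, κ z = decide (z ∈ (K 0).edgeSet) :=
    ⟨_, fun z => rfl⟩
  have hκ0 : ∀ x y, (K 0).Adj x y → κ s(x, y) = true := by
    intro x y h
    rw [hκ]
    simpa using h
  have hκ1 : ∀ x y, (K 1).Adj x y → κ s(x, y) = false := by
    intro x y h
    rw [hκ]
    have : ¬ (K 0).Adj x y := fun h0 => hdis x y h0 h
    simpa using this
  have hgood : Good H (K 0 ⊔ K 1) κ := by
    intro b f hf
    by_contra hcon
    push Not at hcon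
    cases b with
    | true =>
      apply (hK 0).1
      refine ⟨f, hf.1, fun u v huv => ?_⟩
      rcases hf.2 u v huv with h | h
      · exact h
      · have h1 := hcon u v huv
        rw [hκ1 _ _ h] at h1
        exact absurd h1 (by simp)
    | false =>
      apply (hK 1).1
      refine ⟨f, hf.1, fun u v huv => ?_⟩
      rcases hf.2 u v huv with h | h
      · have h1 := hcon u v huv
        rw [hκ0 _ _ h] at h1
        exact absurd h1 (by simp)
      · exact h
  obtain ⟨V', hfin', G', i', hi', hG', ⟨e0, he0, _⟩, hall⟩ := hF (Fin n) (K 0 ⊔ K 1) κ hgood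
  refine closure H (by omega) hδ
    (Pool.Agent.Helper77.SND.Apx G' (fun z => ∃ k ∈ W, z = i' k)) {none} ?_ ?_ ?_
  · intro c
    obtain ⟨e, he⟩ : ∃ e : Sym2 V' → Bool, e = fun z => decide (c (z.map some) = 1) := ⟨_, rfl⟩
    have hce : ∀ (z : Sym2 V') (b : Bool), e z = b → c (z.map some) = fin_cc b := by
      intro z b h
      rw [he] at h
      exact Pool.Agent.Helper77.SND.fin_cc_dec _ _ h
    by_cases hg : Good H G' e
    · have hh : ∀ b : Bool, ∃ i : Fin 2, ∀ x y, (K i).Adj x y →
          G'.Adj (i' x) (i' y) ∧ e s(i' x, i' y) = b := by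
        intro b
        have hsub : ∀ i : Fin 2, ∀ x y, (K i).Adj x y → (K 0 ⊔ K 1).Adj x y := by
          intro i x y h
          have key : ∀ j : Fin 2, j = 0 ∨ j = 1 := by decide
          have hi2 := key i
          rcases hi2 with rfl | rfl
          · exact Or.inl h
          · exact Or.inr h
        rcases hall e hg with hA | hB
        · cases b with
          | true => exact ⟨0, fun x y hxy => ⟨(hG' _ _).2 (hsub 0 x y hxy), by
              rw [hA _ _ (hsub 0 x y hxy), hκ0 x y hxy]⟩⟩
          | false => exact ⟨1, fun x y hxy => ⟨(hG' _ _).2 (hsub 1 x y hxy), by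
              rw [hA _ _ (hsub 1 x y hxy), hκ1 x y hxy]⟩⟩
        · cases b with
          | true => exact ⟨1, fun x y hxy => ⟨(hG' _ _).2 (hsub 1 x y hxy), by
              rw [hB _ _ (hsub 1 x y hxy), hκ1 x y hxy]; rfl⟩⟩
          | false => exact ⟨0, fun x y hxy => ⟨(hG' _ _).2 (hsub 0 x y hxy), by
              rw [hB _ _ (hsub 0 x y hxy), hκ0 x y hxy]; rfl⟩⟩
      obtain ⟨b, T, hTW, hTc, hTcol⟩ := iff_pigeon W H.minDegree hW
        (fun k => c s(none, some (i' k)))
      obtain ⟨i, hadj⟩ := hh b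
      obtain ⟨v0, f, hfinj, hfadj, hfT⟩ := (hK i).2 T hTW hTc
      refine ⟨fin_cc b, fun x => if x = v0 then none else some (i' (f x)), ?_,
        fun _ => Set.mem_univ _, ?_⟩
      · intro x y hxy
        by_cases hx : x = v0
        · by_cases hy : y = v0
          · rw [hx, hy]
          · simp only [if_pos hx, if_neg hy] at hxy
            exact absurd hxy (by simp)
        · by_cases hy : y = v0
          · simp only [if_neg hx, if_pos hy] at hxy
            exact absurd hxy (by simp)
          · simp only [if_neg hx, if_neg hy] at hxy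
            exact hfinj x y hx hy (hi' (Option.some.inj hxy))
      · intro x y hxy
        by_cases hx : x = v0
        · subst hx
          have hy : y ≠ x := hxy.ne'
          simp only [if_neg hy]
          refine ⟨⟨f y, hTW (hfT y hxy), rfl⟩, hTcol _ (hfT y hxy)⟩
        · by_cases hy : y = v0
          · subst hy
            simp only [if_neg hx]
            refine ⟨⟨f x, hTW (hfT x hxy.symm), rfl⟩, ?_⟩
            rw [if_pos trivial, Sym2.eq_swap]
            exact hTcol _ (hfT x hxy.symm)
          · simp only [if_neg hx, if_neg hy]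
            obtain ⟨h1, h2⟩ := hadj _ _ (hfadj x y hx hy hxy)
            exact ⟨h1, hce s(i' (f x), i' (f y)) b h2⟩
    · unfold Good at hg
      push Not at hg
      obtain ⟨b, f, hf, hfb⟩ := hg
      refine ⟨fin_cc b, fun x => some (f x), ?_, fun _ => Set.mem_univ _, ?_⟩
      · exact (Option.some_injective _).comp hf.1
      · intro x y hxy
        refine ⟨hf.2 x y hxy, ?_⟩
        exact hce s(f x, f y) b (hfb x y hxy)
  · intro hR
    obtain ⟨c1, hc1⟩ : ∃ c1 : Sym2 (Option V') → Fin 2,
        ∀ z : Sym2 V', c1 (z.map some) = fin_cc (e0 z) := by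
      refine ⟨fun y => if h : ∃ z : Sym2 V', z.map some = y then fin_cc (e0 h.choose) else 0,
        fun z => ?_⟩
      have hex : ∃ z' : Sym2 V', z'.map some = z.map some := ⟨z, rfl⟩
      show (if h : ∃ z' : Sym2 V', z'.map some = z.map some then fin_cc (e0 h.choose) else 0) =
        fin_cc (e0 z)
      rw [dif_pos hex]
      exact congrArg (fun t => fin_cc (e0 t))
        (Sym2.map.injective (Option.some_injective _) hex.choose_spec)
    obtain ⟨col, f, hf, hfS, hfa⟩ := hR c1
    have hex : ∀ x, ∃ a, f x = some a := by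
      intro x
      have h := hfS x
      cases hfx : f x with
      | none =>
        exfalso
        rw [hfx] at h
        exact h rfl
      | some a => exact ⟨a, rfl⟩
    choose k hk using hex
    have hcopy : Pool.Agent.Helper77.SND.Copy H G' k := by
      constructor
      · intro x y hxy
        apply hf
        rw [hk x, hk y, hxy]
      · intro x y hxy
        have h2 := (hfa x y hxy).1
        rw [hk x, hk y] at h2
        exact h2
    obtain ⟨x, y, hxy, hne⟩ := he0 (decide (col = 1)) k hcopy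
    apply hne
    have h3 := (hfa x y hxy).2
    rw [hk x, hk y] at h3
    have h4 := hc1 s(k x, k y)
    have h5 : fin_cc (e0 s(k x, k y)) = col := by
      rw [← h4]
      exact h3
    rw [← h5]
    cases e0 s(k x, k y) <;> decide
  · intro z hz
    have hz' : z = none := hz
    rw [hz']
    have hsub : (Pool.Agent.Helper77.SND.Apx G' (fun z => ∃ k ∈ W, z = i' k)).neighborSet none ⊆
        ((W.image (fun k => some (i' k)) : Finset (Option V')) : Set (Option V')) := by
      intro y hy
      rw [SimpleGraph.mem_neighborSet] at hy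
      cases y with
      | none => exact hy.elim
      | some v =>
        obtain ⟨k, hk, hk2⟩ : ∃ k ∈ W, v = i' k := hy
        rw [Finset.mem_coe, Finset.mem_image]
        exact ⟨k, hk, by rw [hk2]⟩
    refine (Set.ncard_le_ncard hsub (Finset.finite_toSet _)).trans ?_
    rw [Set.ncard_coe_finset]
    exact Finset.card_image_le.trans hW.le

theorem iff_forth (H : SimpleGraph (Fin m)) (hδ : 1 ≤ H.minDegree)
    (h : sInf (DSet H) = 2 * (H.minDegree - 1) + 1) : DCrit H := by
  have hne : (DSet H).Nonempty := by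
    by_contra hcon
    rw [Set.not_nonempty_iff_eq_empty] at hcon
    rw [hcon, Nat.sInf_empty] at h
    omega
  have hmem := Nat.sInf_mem hne
  rw [h] at hmem
  obtain ⟨n, G, hR, hM, hdeg⟩ := hmem
  have hnz : 0 < n := by
    by_contra hcon
    have hn : n = 0 := by omega
    subst hn
    have : G.minDegree = 0 := by
      apply SimpleGraph.minDegree_of_subsingleton
    omega
  have : Nonempty (Fin n) := ⟨⟨0, hnz⟩⟩
  obtain ⟨x, hx⟩ := G.exists_minimal_degree_vertex
  rw [hdeg] at hx
  obtain ⟨G', hG'⟩ : ∃ G' : SimpleGraph (Fin n), ∀ a b, G'.Adj a b ↔ G.Adj a b ∧ a ≠ x ∧ b ≠ x :=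
    ⟨{ Adj := fun a b => G.Adj a b ∧ a ≠ x ∧ b ≠ x
       symm := ⟨fun a b h => ⟨h.1.symm, h.2.2, h.2.1⟩⟩
       loopless := ⟨fun a h => G.loopless.irrefl a h.1⟩ }, fun a b => Iff.rfl⟩
  obtain ⟨c, hc⟩ := hM {v | v ≠ x} G' (fun a b h => ((hG' a b).1 h).1)
    (fun a b h => ⟨((hG' a b).1 h).2.1, ((hG' a b).1 h).2.2⟩)
    (Or.inl (fun h => by
      have : x ∈ ({v | v ≠ x} : Set (Fin n)) := by rw [h]; exact Set.mem_univ _
      exact this rfl))
  obtain ⟨K, hKadj⟩ : ∃ K : Fin 2 → SimpleGraph (Fin n), ∀ i a b, (K i).Adj a b ↔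
      G'.Adj a b ∧ c s(a, b) = i :=
    ⟨fun i => { Adj := fun a b => G'.Adj a b ∧ c s(a, b) = i
                symm := ⟨fun a b h => ⟨h.1.symm, by rw [Sym2.eq_swap]; exact h.2⟩⟩
                loopless := ⟨fun a h => G'.loopless.irrefl a h.1⟩ }, fun i a b => Iff.rfl⟩
  have hWc : (G.neighborFinset x).card = 2 * (H.minDegree - 1) + 1 := by
    rw [SimpleGraph.card_neighborFinset_eq_degree, ← hx]
  have hnb : ∀ u, ∃ v, H.Adj u v := by
    intro u
    have h1 := H.minDegree_le_degree u
    have h2 : 0 < (H.neighborFinset u).card := by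
      rw [SimpleGraph.card_neighborFinset_eq_degree]; omega
    obtain ⟨v, hv⟩ := Finset.card_pos.1 h2
    exact ⟨v, (SimpleGraph.mem_neighborFinset _ _ _).1 hv⟩
  refine ⟨n, K, G.neighborFinset x, hWc, ?_, ?_⟩
  · intro a b h0 h1
    have h2 := ((hKadj 0 a b).1 h0).2
    have h3 := ((hKadj 1 a b).1 h1).2
    rw [h2] at h3
    exact absurd h3 (by decide)
  intro i
  constructor
  · rintro ⟨f, hf, hfa⟩
    have hfx : ∀ u, f u ≠ x := by
      intro u
      obtain ⟨v, hv⟩ := hnb u
      exact ((hG' _ _).1 ((hKadj i _ _).1 (hfa u v hv)).1).2.1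
    obtain ⟨u, v, huv, hno⟩ := hc i f hf hfx
    exact hno ((hKadj i _ _).1 (hfa u v huv))
  · intro T hTW hTc
    obtain ⟨c', hc'⟩ : ∃ c' : Sym2 (Fin n) → Fin 2,
        ∀ z, c' z = if x ∈ z then (if ∃ w ∈ T, z = s(x, w) then i else 1 - i) else c z :=
      ⟨_, fun z => rfl⟩
    obtain ⟨j, f, hf, hfa⟩ := hR c'
    have h2 : ∀ y, (∃ w ∈ T, s(x, y) = s(x, w)) ↔ y ∈ T := by
      intro y
      constructor
      · rintro ⟨w, hw, hw2⟩
        rw [Sym2.eq_iff] at hw2
        rcases hw2 with ⟨_, h⟩ | ⟨h, h'⟩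
        · rw [h]; exact hw
        · rw [h', h]; exact hw
      · intro h
        exact ⟨y, h, rfl⟩
    have hoff : ∀ u v, H.Adj u v → f u ≠ x → f v ≠ x → (K j).Adj (f u) (f v) := by
      intro u v huv hu hv
      have h3 := hfa u v huv
      rw [hKadj]
      refine ⟨(hG' _ _).2 ⟨h3.1, hu, hv⟩, ?_⟩
      have h4 := h3.2
      rw [hc', if_neg (by
        rw [Sym2.mem_iff]
        rintro (h | h)
        · exact hu h.symm
        · exact hv h.symm)] at h4
      exact h4
    by_cases hvf : ∃ v0, f v0 = x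
    · obtain ⟨v0, hv0⟩ := hvf
      have h3 : ∀ u, H.Adj v0 u → f u ∈ G.neighborFinset x ∧ (if f u ∈ T then i else 1 - i) = j := by
        intro u hu
        have h4 := hfa v0 u hu
        rw [hv0] at h4
        refine ⟨by rw [SimpleGraph.mem_neighborFinset]; exact h4.1, ?_⟩
        have h5 := h4.2
        rw [hc', if_pos (Sym2.mem_mk_left _ _)] at h5
        simp only [h2] at h5
        exact h5
      have hij : j = i := by
        by_contra hne
        have h4 : (H.neighborFinset v0).image f ⊆ G.neighborFinset x \ T := by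
          intro z hz
          rw [Finset.mem_image] at hz
          obtain ⟨u, hu, rfl⟩ := hz
          rw [SimpleGraph.mem_neighborFinset] at hu
          obtain ⟨h5, h6⟩ := h3 u hu
          rw [Finset.mem_sdiff]
          refine ⟨h5, fun h7 => ?_⟩
          rw [if_pos h7] at h6
          exact hne h6.symm
        have h5 := Finset.card_le_card h4
        rw [Finset.card_image_of_injective _ hf, SimpleGraph.card_neighborFinset_eq_degree,
          Finset.card_sdiff_of_subset hTW, hWc, hTc] at h5
        have h6 := H.minDegree_le_degree v0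
        omega
      subst hij
      refine ⟨v0, f, fun u v _ _ h => hf h, ?_, ?_⟩
      · intro u v hu hv huv
        refine hoff u v huv ?_ ?_
        · intro h
          exact hu (hf (h.trans hv0.symm))
        · intro h
          exact hv (hf (h.trans hv0.symm))
      · intro u hu
        obtain ⟨_, h4⟩ := h3 u hu
        by_contra h5
        rw [if_neg h5] at h4
        have key : ∀ j : Fin 2, ¬ (1 - j = j) := by decide
        exact key j h4
    · push Not at hvf
      obtain ⟨u, v, huv, hno⟩ := hc j f hf hvf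
      exact absurd ((hKadj j _ _).1 (hoff u v huv (hvf u) (hvf v))) hno

theorem iff_main (H : SimpleGraph (Fin m)) (hm : 4 ≤ m) (hδ : 1 ≤ H.minDegree)
    (hF : Force H) : sInf (DSet H) = 2 * (H.minDegree - 1) + 1 ↔ DCrit H :=
  ⟨iff_forth H hδ, iff_back H hm hδ hF⟩

end Pool.Agent.Helper28.RS
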