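import Pool.Agent.Helper77.SND.Stmts

/-!
# MP_7ef5a1_co: the host for a vertex whose neighbourhood lies in a large independent set
-/

set_option autoImplicit false
open Classical

namespace Pool.Agent.Helper28.RS

/-- the complete graph on `V - v0` without the edges inside `I` -/
def cmi {m : ℕ} (I : Finset (Fin m)) (v0 : Fin m) : SimpleGraph {x : Fin m // x ≠ v0} where
  Adj x y := x ≠ y ∧ ¬ (x.1 ∈ I ∧ y.1 ∈ I)
  symm := ⟨fun _ _ h => ⟨h.1.symm, fun h' => h.2 ⟨h'.2, h'.1⟩⟩⟩
  loopless := ⟨fun _ h => h.1 rfl⟩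

theorem crit_of_indep {m : ℕ} (H : SimpleGraph (Fin m)) (hd : 1 ≤ H.minDegree) (v0 : Fin m)
    (hv0 : H.degree v0 = H.minDegree) (I : Finset (Fin m))
    (hI : ∀ x ∈ I, ∀ y ∈ I, ¬ H.Adj x y) (hc : I.card = 2 * (H.minDegree - 1) + 1)
    (hN : ∀ u, H.Adj v0 u → u ∈ I) : Pool.Agent.Helper77.SND.Crit H := by
  have hvI : v0 ∉ I := by
    intro h
    have h1 : 0 < (H.neighborFinset v0).card := by
      rw [SimpleGraph.card_neighborFinset_eq_degree]; omega
    obtain ⟨u, hu⟩ := Finset.card_pos.1 h1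
    rw [SimpleGraph.mem_neighborFinset] at hu
    exact hI v0 h u (hN u hu) hu
  have hne : ∀ x ∈ I, x ≠ v0 := fun x hx h => hvI (h ▸ hx)
  let e : Fin (2 * (H.minDegree - 1) + 1) ≃ {x // x ∈ I} := (Finset.equivFinOfCardEq hc).symm
  refine ⟨{x : Fin m // x ≠ v0}, inferInstance, cmi I v0,
    fun i => ⟨(e i).1, hne _ (e i).2⟩, ?_, ?_, ?_, ?_⟩
  · intro i j h
    have h1 : (e i).1 = (e j).1 := Subtype.mk.inj h
    exact e.injective (Subtype.ext h1)
  · intro i j h
    exact h.2 ⟨(e i).2, (e j).2⟩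
  · intro f hf
    have hinj : Function.Injective (fun x => (f x).1) := fun a b h => hf.1 (Subtype.ext h)
    obtain ⟨a, ha⟩ := (Finite.injective_iff_surjective.1 hinj) v0
    exact (f a).2 ha
  · intro T hT
    let B : Finset (Fin m) := T.image (fun k => (e k).1)
    have hB : ∀ x ∈ B, x ∈ I := by
      intro x hx
      obtain ⟨k, _, rfl⟩ := Finset.mem_image.1 hx
      exact (e k).2
    have hBc : B.card = H.minDegree := by
      rw [Finset.card_image_of_injective _ (fun a b h => e.injective (Subtype.ext h)), hT]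
    have hcard : Fintype.card {x : {x // x ∈ I} // x.1 ∈ H.neighborFinset v0} =
        Fintype.card {x : {x // x ∈ I} // x.1 ∈ B} := by
      have h1 : ∀ A : Finset (Fin m), (∀ x ∈ A, x ∈ I) →
          Fintype.card {x : {x // x ∈ I} // x.1 ∈ A} = A.card := by
        intro A hA
        rw [← Fintype.card_coe A]
        apply Fintype.card_congr
        exact ⟨fun x => ⟨x.1.1, x.2⟩, fun x => ⟨⟨x.1, hA _ x.2⟩, x.2⟩, fun x => rfl, fun x => rfl⟩
      rw [h1 _ (fun x hx => hN x ((SimpleGraph.mem_neighborFinset _ _ _).1 hx)), h1 _ hB, hBc,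
        SimpleGraph.card_neighborFinset_eq_degree, hv0]
    let e1 : {x : {x // x ∈ I} // x.1 ∈ H.neighborFinset v0} ≃ {x : {x // x ∈ I} // x.1 ∈ B} :=
      Fintype.equivOfCardEq hcard
    let π : Equiv.Perm {x // x ∈ I} := e1.extendSubtype
    let σ : Equiv.Perm (Fin m) := Equiv.Perm.ofSubtype π
    have hσI : ∀ x (hx : x ∈ I), σ x = (π ⟨x, hx⟩).1 := fun x hx =>
      Equiv.Perm.ofSubtype_apply_of_mem π hx
    have hσO : ∀ x, x ∉ I → σ x = x := fun x hx => Equiv.Perm.ofSubtype_apply_of_not_mem π hx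
    have hσv : σ v0 = v0 := hσO v0 hvI
    have hσne : ∀ x, x ≠ v0 → σ x ≠ v0 := by
      intro x hx h
      exact hx (σ.injective (h.trans hσv.symm))
    have hσN : ∀ x, H.Adj v0 x → ∃ k ∈ T, σ x = (e k).1 := by
      intro x hx
      have hxI := hN x hx
      rw [hσI x hxI]
      have h1 : (π ⟨x, hxI⟩).1 ∈ B :=
        e1.extendSubtype_mem ⟨x, hxI⟩ ((SimpleGraph.mem_neighborFinset _ _ _).2 hx)
      obtain ⟨k, hk, hk2⟩ := Finset.mem_image.1 h1
      exact ⟨k, hk, hk2.symm⟩
    have hσmem : ∀ x, σ x ∈ I → x ∈ I := by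
      intro x h
      by_contra hx
      rw [hσO x hx] at h
      exact hx h
    refine ⟨fun x => if h : x = v0 then none else some ⟨σ x, hσne x h⟩, ?_, ?_⟩
    · intro x y h
      by_cases hx : x = v0
      · by_cases hy : y = v0
        · rw [hx, hy]
        · simp [hx, hy] at h
      · by_cases hy : y = v0
        · simp [hx, hy] at h
        · simp only [dif_neg hx, dif_neg hy] at h
          have h1 := congrArg Subtype.val (Option.some.inj h)
          exact σ.injective h1
    · intro x y hxy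
      by_cases hx : x = v0
      · subst hx
        have hy : y ≠ x := hxy.ne'
        simp only [dif_neg hy]
        obtain ⟨k, hk, hk2⟩ := hσN y hxy
        exact ⟨k, hk, Subtype.ext hk2⟩
      · by_cases hy : y = v0
        · subst hy
          simp only [dif_neg hx]
          obtain ⟨k, hk, hk2⟩ := hσN x hxy.symm
          exact ⟨k, hk, Subtype.ext hk2⟩
        · simp only [dif_neg hx, dif_neg hy]
          refine ⟨?_, ?_⟩
          · intro h
            exact hxy.ne (σ.injective (congrArg Subtype.val h))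
          · rintro ⟨h1, h2⟩
            exact hI x (hσmem x h1) y (hσmem y h2) hxy

end Pool.Agent.Helper28.RS
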