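import Pool.Agent.Helper28.RS.ToCrit
import Pool.Agent.Helper28.RS.Iff
import Pool.Agent.Helper58.RS.Small
import Pool.Agent.Helper67.RS3.DEG
import Pool.Agent.Helper67.RS3.SEP3
import Pool.Agent.Helper67.RS3.H0
import Pool.Agent.Helper61.RS3.RAMS
import Pool.Agent.Helper83.RS3.HB
import Pool.Agent.Helper7.RS3.HYP
import Pool.Agent.Helper72.RS3.YCOL
import Pool.Agent.Helper8.RS3.CRIT
import Pool.Agent.Helper8.RS3.YLOC
import Pool.Agent.Helper49.RS3.STAR
import Pool.Agent.Helper44.RS3.TWO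
import Pool.Agent.Helper85.RS3.GLUE
import Pool.Agent.Helper79.RS3.GL2
import Pool.Agent.Helper94.RS3.GL4
import Pool.Agent.Helper95.RS3.FORCE1
import Pool.Agent.Helper58.RS3.FORCE
import Pool.Agent.Helper25.RS3.CHAIN

/-!
# MP_7ef5a1_co: the main theorems
-/

set_option autoImplicit false
open Classical

namespace Pool.Agent.Helper28.RS

open Pool.Agent.Helper77.SND
open Pool.Agent.Helper58.RS (DSet)

theorem force_all (hHS : ST_HS) {m : ℕ} (H : SimpleGraph (Fin m)) (hC : C3 H) : Force H := by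
  have hdeg := st_DEG
  have hstar := st_STAR st_RAMS hdeg m H hC
  have hneg := st_CRIT st_YLOC st_YCOL m H hC hstar (st_HYP st_HB st_H0 hHS (m * m))
  have hsnd := st_CHAIN (st_GL2 st_GLUE) m H hC hneg
  exact st_FORCE (st_FORCE1 (st_GL4 st_GLUE)) m H hC hsnd

theorem min_pos3 {m : ℕ} (H : SimpleGraph (Fin m)) (hm : 4 ≤ m)
    (h3 : ∀ S : Finset (Fin m), S.card ≤ 2 → (H.induce {v | v ∉ S}).Connected) :
    3 ≤ H.minDegree := by
  have : Nonempty (Fin m) := ⟨⟨0, by omega⟩⟩
  obtain ⟨v, hv⟩ := H.exists_minimal_degree_vertex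
  rw [hv]
  by_contra hcon
  have hc := h3 (H.neighborFinset v) (by
    rw [SimpleGraph.card_neighborFinset_eq_degree]; omega)
  obtain ⟨w, hw⟩ : ∃ w : Fin m, w ∉ insert v (H.neighborFinset v) := by
    by_contra hne
    push Not at hne
    have h1 : (Finset.univ : Finset (Fin m)) ⊆ insert v (H.neighborFinset v) := fun w _ => hne w
    have h2 := (Finset.card_le_card h1).trans (Finset.card_insert_le _ _)
    rw [Finset.card_univ, Fintype.card_fin, SimpleGraph.card_neighborFinset_eq_degree] at h2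
    omega
  rw [Finset.mem_insert, not_or] at hw
  have hvn : v ∉ H.neighborFinset v := by
    rw [SimpleGraph.mem_neighborFinset]
    exact H.loopless.irrefl v
  have hr := hc.preconnected ⟨v, hvn⟩ ⟨w, hw.2⟩
  rw [SimpleGraph.reachable_iff_reflTransGen] at hr
  rcases Relation.ReflTransGen.cases_head hr with h | ⟨b, hb, _⟩
  · exact hw.1 (congrArg Subtype.val h).symm
  · have hvb : H.Adj v b.1 := hb
    exact b.2 ((SimpleGraph.mem_neighborFinset _ _ _).2 hvb)

theorem conn3 {m : ℕ} (H : SimpleGraph (Fin m)) (hm : 4 ≤ m)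
    (h3 : ∀ S : Finset (Fin m), S.card ≤ 2 → (H.induce {v | v ∉ S}).Connected) :
    H.Connected := by
  have h := h3 ∅ (by simp)
  have : Nonempty (Fin m) := ⟨⟨0, by omega⟩⟩
  refine SimpleGraph.Connected.mk (fun u v => ?_)
  have h1 := h.preconnected ⟨u, by simp⟩ ⟨v, by simp⟩
  exact h1.map (SimpleGraph.Embedding.induce (G := H) {v | v ∉ (∅ : Finset (Fin m))}).toHom

theorem main_reg (hHS : ST_HS) {m : ℕ} (H : SimpleGraph (Fin m)) (hm : 4 ≤ m)
    (h3 : ∀ S : Finset (Fin m), S.card ≤ 2 → (H.induce {v | v ∉ S}).Connected)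
    (htf : H.CliqueFree 3) (hreg : ∀ v, H.degree v = H.minDegree) :
    sInf (DSet H) = 2 * (H.minDegree - 1) + 1 := by
  have hC := st_SEP3 m H ⟨hm, h3⟩
  have hδ := min_pos3 H hm h3
  have hcon := conn3 H hm h3
  have htf' := TF_of_cliqueFree H htf
  by_cases hb : ∃ A : Finset (Fin m), ∀ u v, H.Adj u v → (u ∈ A ↔ v ∉ A)
  · obtain ⟨A, hA⟩ := hb
    have key : ∀ A : Finset (Fin m), (∀ u v, H.Adj u v → (u ∈ A ↔ v ∉ A)) →
        A.card ≤ Aᶜ.card → 0 < A.card → sInf (DSet H) = 2 * (H.minDegree - 1) + 1 := by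
      intro A hA hc hpos
      apply Pool.Agent.Helper58.RS.small H A (by omega) hcon hA hc
      have : Aᶜ.filter (fun v => H.minDegree < H.degree v) = ∅ := by
        apply Finset.filter_false_of_mem
        intro v _
        rw [hreg v]
        exact lt_irrefl _
      rw [this, Finset.card_empty]
      exact hpos
    have hne : ∀ B : Finset (Fin m), (∀ u v, H.Adj u v → (u ∈ B ↔ v ∉ B)) → 0 < B.card := by
      intro B hB
      rw [Finset.card_pos]
      obtain ⟨v⟩ := hcon.nonempty
      have h2 : 0 < (H.neighborFinset v).card := by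
        rw [SimpleGraph.card_neighborFinset_eq_degree, hreg]; omega
      obtain ⟨u, hu⟩ := Finset.card_pos.1 h2
      rw [SimpleGraph.mem_neighborFinset] at hu
      by_cases hv : v ∈ B
      · exact ⟨v, hv⟩
      · refine ⟨u, ?_⟩
        by_contra hu'
        exact hv ((hB v u hu).2 hu')
    by_cases hc : A.card ≤ Aᶜ.card
    · exact key A hA hc (hne A hA)
    · have hA' : ∀ u v, H.Adj u v → (u ∈ Aᶜ ↔ v ∉ Aᶜ) := by
        intro u v huv
        have := hA u v huv
        rw [Finset.mem_compl, Finset.mem_compl, not_not]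
        constructor
        · intro h
          by_contra h'
          exact h (this.2 h')
        · intro h h'
          exact (this.1 h') h
      refine key Aᶜ hA' ?_ (hne _ hA')
      rw [compl_compl]
      omega
  · obtain ⟨v0, hv0⟩ := reg_free (w := 2 * (H.minDegree - 1) + 1) H htf' hcon H.minDegree
      (by omega) hreg hb
    exact st_FIN st_GLUE m H hC (force_all hHS H hC)
      (crit_of_amal H htf' ⟨v0, hreg v0, hv0⟩)

theorem main_sup (hHS : ST_HS) {m : ℕ} (H : SimpleGraph (Fin m)) (hm : 4 ≤ m)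
    (h3 : ∀ S : Finset (Fin m), S.card ≤ 2 → (H.induce {v | v ∉ S}).Connected)
    (htf : H.CliqueFree 3) (hno : ¬ ∃ S, BadSep H S) :
    sInf (DSet H) = 2 * (H.minDegree - 1) + 1 := by
  have hC := st_SEP3 m H ⟨hm, h3⟩
  have hδ := min_pos3 H hm h3
  have htf' := TF_of_cliqueFree H htf
  exact st_FIN st_GLUE m H hC (force_all hHS H hC)
    (crit_of_amal H htf' (sup_free H htf' (by omega) (by omega) rfl hno))

theorem main_iff (hHS : ST_HS) {m : ℕ} (H : SimpleGraph (Fin m)) (hm : 4 ≤ m)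
    (h3 : ∀ S : Finset (Fin m), S.card ≤ 2 → (H.induce {v | v ∉ S}).Connected) :
    sInf (DSet H) = 2 * (H.minDegree - 1) + 1 ↔ DCrit H := by
  have hC := st_SEP3 m H ⟨hm, h3⟩
  have hδ := min_pos3 H hm h3
  exact iff_main H hm (by omega) (force_all hHS H hC)

end Pool.Agent.Helper28.RS
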