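import Pool.Agent.Helper28.RS.Sup

/-!
# MP_7ef5a1_co: regular graphs
-/

set_option autoImplicit false
open Classical

namespace Pool.Agent.Helper28.RS

variable {m w : ℕ}

/-- a nonempty connected set with a vertex neither in it nor adjacent to it -/
def Far (H : SimpleGraph (Fin m)) (X : Finset (Fin m)) : Prop :=
  X.Nonempty ∧ (∀ u ∈ X, ∀ v ∈ X, Relation.ReflTransGen (fun a b => H.Adj a b ∧ b ∈ X) u v) ∧
    ∃ z, z ∉ X ∧ ∀ x ∈ X, ¬ H.Adj x z

/-- maximality -/
theorem Far.max {H : SimpleGraph (Fin m)} {X : Finset (Fin m)}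
    (hmax : ∀ Y, Far H Y → Y.card ≤ X.card) (hX : Far H X) (z q : Fin m) (hz : z ∉ X)
    (hzX : ∀ x ∈ X, ¬ H.Adj x z) (hq : q ∉ X) (hqX : ∃ x ∈ X, H.Adj x q) : H.Adj z q := by
  by_contra hcon
  obtain ⟨x, hx, hxq⟩ := hqX
  have h1 : Far H (insert q X) := by
    refine ⟨⟨q, Finset.mem_insert_self _ _⟩, ?_, z, ?_, ?_⟩
    · have hmono : ∀ u v, Relation.ReflTransGen (fun a b => H.Adj a b ∧ b ∈ X) u v →
          Relation.ReflTransGen (fun a b => H.Adj a b ∧ b ∈ insert q X) u v := by
        intro u v h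
        induction h with
        | refl => exact Relation.ReflTransGen.refl
        | tail _ hbc ih => exact ih.tail ⟨hbc.1, Finset.mem_insert_of_mem hbc.2⟩
      have hto : ∀ u ∈ insert q X,
          Relation.ReflTransGen (fun a b => H.Adj a b ∧ b ∈ insert q X) u x := by
        intro u hu
        rw [Finset.mem_insert] at hu
        rcases hu with rfl | hu
        · exact Relation.ReflTransGen.single ⟨hxq.symm, Finset.mem_insert_of_mem hx⟩
        · exact hmono _ _ (hX.2.1 u hu x hx)
      have hfrom : ∀ u ∈ insert q X,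
          Relation.ReflTransGen (fun a b => H.Adj a b ∧ b ∈ insert q X) x u := by
        intro u hu
        rw [Finset.mem_insert] at hu
        rcases hu with rfl | hu
        · exact Relation.ReflTransGen.single ⟨hxq, Finset.mem_insert_self _ _⟩
        · exact hmono _ _ (hX.2.1 x hx u hu)
      exact fun u hu v hv => (hto u hu).trans (hfrom v hv)
    · rw [Finset.mem_insert]
      rintro (h | h)
      · exact hzX x hx (h ▸ hxq)
      · exact hz h
    · intro y hy hyz
      rw [Finset.mem_insert] at hy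
      rcases hy with rfl | hy
      · exact hcon hyz.symm
      · exact hzX y hy hyz
  have h2 := hmax _ h1
  rw [Finset.card_insert_of_notMem hq] at h2
  omega

/-- two vertices outside a maximal set and its neighbourhood are not adjacent -/
theorem Far.indep {H : SimpleGraph (Fin m)} (htf : TF H) (hc : H.Connected) {X : Finset (Fin m)}
    (hmax : ∀ Y, Far H Y → Y.card ≤ X.card) (hX : Far H X) (z z' : Fin m) (hz : z ∉ X)
    (hzX : ∀ x ∈ X, ¬ H.Adj x z) (hz' : z' ∉ X) (hzX' : ∀ x ∈ X, ¬ H.Adj x z') :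
    ¬ H.Adj z z' := by
  intro hzz
  -- the neighbourhood of `X` is not empty
  obtain ⟨x, hx⟩ := hX.1
  obtain ⟨q, hq, hqX⟩ : ∃ q, q ∉ X ∧ ∃ x ∈ X, H.Adj x q := by
    by_contra hcon
    push Not at hcon
    have h1 : ∀ y, Relation.ReflTransGen H.Adj x y → y ∈ X := by
      intro y hy
      induction hy with
      | refl => exact hx
      | @tail b c _ hbc ih =>
        by_contra hc'
        exact hcon c hc' b ih hbc
    apply hz
    apply h1
    rw [← SimpleGraph.reachable_iff_reflTransGen]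
    exact hc.preconnected x z
  have h1 := hX.max hmax z q hz hzX hq hqX
  have h2 := hX.max hmax z' q hz' hzX' hq hqX
  exact htf z z' q hzz h2 h1

theorem reg_free (H : SimpleGraph (Fin m)) (htf : TF H) (hc : H.Connected) (d : ℕ) (hd : 2 ≤ d)
    (hreg : ∀ v, H.degree v = d)
    (hnb : ¬ ∃ A : Finset (Fin m), ∀ u v, H.Adj u v → (u ∈ A ↔ v ∉ A)) :
    ∃ v0, ∀ β : Finset (Fin w) → Fin m → Fin w,
      Bet H v0 d β → ¬ ∃ f, Copy H (amal H v0 d β) f := by
  have hne : Nonempty (Fin m) := hc.nonempty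
  obtain ⟨a0⟩ := hne
  -- the class of connected sets is not empty
  have hex : ∃ X, Far H X := by
    have h1 : 1 < (H.neighborFinset a0).card := by
      rw [SimpleGraph.card_neighborFinset_eq_degree, hreg]; omega
    obtain ⟨b, hb, c, hc', hbc⟩ := Finset.one_lt_card.1 h1
    rw [SimpleGraph.mem_neighborFinset] at hb hc'
    refine ⟨{b}, ⟨b, by simp⟩, ?_, c, ?_, ?_⟩
    · intro u hu v hv
      rw [Finset.mem_singleton] at hu hv
      rw [hu, hv]
    · rw [Finset.mem_singleton]
      exact hbc.symm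
    · intro x hx
      rw [Finset.mem_singleton] at hx
      rw [hx]
      exact fun h => htf a0 b c hb h hc'
  obtain ⟨X, hXm, hXmax⟩ := Finset.exists_max_image (Finset.univ.filter (fun X => Far H X))
    (fun X => X.card) (by obtain ⟨X, hX⟩ := hex; exact ⟨X, by simp [hX]⟩)
  have hX : Far H X := (Finset.mem_filter.1 hXm).2
  have hmax : ∀ Y, Far H Y → Y.card ≤ X.card := fun Y hY => hXmax Y (by simp [hY])
  obtain ⟨v0, hv0, hv0X⟩ := hX.2.2
  -- the neighbourhood of `v0`
  have hN : ∀ z, z ∉ X → (∀ x ∈ X, ¬ H.Adj x z) → ∀ q, H.Adj z q ↔ (q ∉ X ∧ ∃ x ∈ X, H.Adj x q) := by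
    intro z hz hzX q
    constructor
    · intro hzq
      have hq : q ∉ X := fun h => hzX q h hzq.symm
      refine ⟨hq, ?_⟩
      by_contra hcon
      push Not at hcon
      exact hX.indep htf hc hmax z q hz hzX hq hcon hzq
    · rintro ⟨hq, hqX⟩
      exact hX.max hmax z q hz hzX hq hqX
  refine ⟨v0, ?_⟩
  rintro β hβ ⟨f, hf, hfa⟩
  have hdeg : ∀ u, ∃ v, H.Adj u v := by
    intro u
    have h2 : 0 < (H.neighborFinset u).card := by
      rw [SimpleGraph.card_neighborFinset_eq_degree, hreg]; omega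
    obtain ⟨v, hv⟩ := Finset.card_pos.1 h2
    exact ⟨v, (SimpleGraph.mem_neighborFinset _ _ _).1 hv⟩
  -- private vertices use all their edges
  have huse : ∀ u T p, f u = Sum.inr (T, p) → ∀ q, H.Adj p q →
      ∃ v, H.Adj u v ∧ f v = gm H v0 β T q := by
    intro u T p hu q hpq
    have hTd : T.card = d := by
      obtain ⟨v, hv⟩ := hdeg u
      have := hfa u v hv
      rw [hu] at this
      exact (amal_nbr hβ this).1
    have h1 : (H.neighborFinset u).image f ⊆ (H.neighborFinset p).image (gm H v0 β T) := by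
      intro a ha
      rw [Finset.mem_image] at ha
      obtain ⟨v, hv, rfl⟩ := ha
      rw [SimpleGraph.mem_neighborFinset] at hv
      have := hfa u v hv
      rw [hu] at this
      obtain ⟨_, _, _, q', hq', hq2⟩ := amal_nbr hβ this
      exact Finset.mem_image.2 ⟨q', (SimpleGraph.mem_neighborFinset _ _ _).2 hq', hq2⟩
    have h2 : (H.neighborFinset u).image f = (H.neighborFinset p).image (gm H v0 β T) := by
      apply Finset.eq_of_subset_of_card_le h1
      refine le_trans Finset.card_image_le ?_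
      rw [Finset.card_image_of_injective _ hf, SimpleGraph.card_neighborFinset_eq_degree,
        SimpleGraph.card_neighborFinset_eq_degree, hreg, hreg]
    have h3 : gm H v0 β T q ∈ (H.neighborFinset u).image f := by
      rw [h2]
      exact Finset.mem_image_of_mem _ ((SimpleGraph.mem_neighborFinset _ _ _).2 hpq)
    rw [Finset.mem_image] at h3
    obtain ⟨v, hv, hv2⟩ := h3
    exact ⟨v, (SimpleGraph.mem_neighborFinset _ _ _).1 hv, hv2⟩
  have hgX : ∀ T x, x ∈ X → gm H v0 β T x = Sum.inr (T, x) := by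
    intro T x hx
    unfold gm
    rw [if_neg (fun h => hv0X x hx h.symm)]
  by_cases hcase : ∃ u T x, x ∈ X ∧ f u = Sum.inr (T, x)
  · obtain ⟨u0, T, x0, hx0, hu0⟩ := hcase
    have hTd : T.card = d := by
      obtain ⟨v, hv⟩ := hdeg u0
      have := hfa u0 v hv
      rw [hu0] at this
      exact (amal_nbr hβ this).1
    -- the copy contains the whole of `X`
    have hall : ∀ x ∈ X, ∃ a, f a = Sum.inr (T, x) ∧
        Relation.ReflTransGen (fun a b => H.Adj a b ∧ ∃ y ∈ X, f b = Sum.inr (T, y)) u0 a := by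
      intro x hx
      have h1 := hX.2.1 x0 hx0 x hx
      clear hx
      induction h1 with
      | refl => exact ⟨u0, hu0, Relation.ReflTransGen.refl⟩
      | @tail b c _ hbc ih =>
        obtain ⟨a, ha, hra⟩ := ih
        obtain ⟨v, hv, hv2⟩ := huse a T b ha c hbc.1
        rw [hgX T c hbc.2] at hv2
        exact ⟨v, hv2, hra.tail ⟨hv, c, hbc.2, hv2⟩⟩
    obtain ⟨A, hA⟩ : ∃ A : Finset (Fin m), ∀ a, a ∈ A ↔ ∃ x ∈ X, f a = Sum.inr (T, x) :=
      ⟨Finset.univ.filter (fun a => ∃ x ∈ X, f a = Sum.inr (T, x)), fun a => by simp⟩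
    have hAX : A.image f = X.image (fun x => (Sum.inr (T, x) : Fin w ⊕ (Finset (Fin w) × Fin m))) := by
      ext b
      rw [Finset.mem_image, Finset.mem_image]
      constructor
      · rintro ⟨a, ha, rfl⟩
        obtain ⟨x, hx, hx2⟩ := (hA a).1 ha
        exact ⟨x, hx, hx2.symm⟩
      · rintro ⟨x, hx, rfl⟩
        obtain ⟨a, ha, _⟩ := hall x hx
        exact ⟨a, (hA a).2 ⟨x, hx, ha⟩, ha⟩
    have hAcard : A.card = X.card := by
      have h1 := congrArg Finset.card hAX
      rw [Finset.card_image_of_injective _ hf, Finset.card_image_of_injective] at h1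
      · exact h1
      · intro a b hab
        exact congrArg Prod.snd (Sum.inr.inj hab)
    -- `A` is connected
    have hconn : ∀ a ∈ A, ∀ b ∈ A, Relation.ReflTransGen (fun a b => H.Adj a b ∧ b ∈ A) a b := by
      intro a ha b hb
      obtain ⟨x, hx, hx2⟩ := (hA a).1 ha
      obtain ⟨y, hy, hy2⟩ := (hA b).1 hb
      have h1 := hX.2.1 x hx y hy
      clear hb hy
      induction h1 generalizing b with
      | refl =>
        have : a = b := hf (hx2.trans hy2.symm)
        rw [this]
      | @tail c e _ hce ih =>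
        obtain ⟨v, hv, hv2⟩ := huse b T e hy2 c hce.1.symm
        have hcX : c ∈ X := by
          rename_i hxc
          rcases Relation.ReflTransGen.cases_tail hxc with h | ⟨_, _, h⟩
          · rw [h]; exact hx
          · exact h.2
        rw [hgX T c hcX] at hv2
        have h3 := ih v hv2
        exact h3.tail ⟨hv.symm, (hA b).2 ⟨e, hce.2, hy2⟩⟩
    -- neighbours of `A`
    have hAN : ∀ a ∈ A, ∀ v, H.Adj a v → v ∈ A ∨ ∃ q, H.Adj v0 q ∧ f v = Sum.inl (β T q) := by
      intro a ha v hv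
      obtain ⟨x, hx, hx2⟩ := (hA a).1 ha
      have := hfa a v hv
      rw [hx2] at this
      obtain ⟨_, _, _, q, hq, hq2⟩ := amal_nbr hβ this
      by_cases hqX : q ∈ X
      · left
        rw [hgX T q hqX] at hq2
        exact (hA v).2 ⟨q, hqX, hq2.symm⟩
      · right
        have hvq : H.Adj v0 q := (hN v0 hv0 hv0X q).2 ⟨hqX, x, hx, hq⟩
        refine ⟨q, hvq, ?_⟩
        rw [← hq2]
        unfold gm
        rw [if_pos hvq]
    have hB : ∀ q, H.Adj v0 q → ∃ b, f b = Sum.inl (β T q) ∧ b ∉ A ∧ ∃ a ∈ A, H.Adj a b := by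
      intro q hq
      obtain ⟨hqX, x, hx, hxq⟩ := (hN v0 hv0 hv0X q).1 hq
      obtain ⟨a, ha, _⟩ := hall x hx
      obtain ⟨b, hb, hb2⟩ := huse a T x ha q hxq
      have hb3 : gm H v0 β T q = Sum.inl (β T q) := by
        unfold gm
        rw [if_pos hq]
      rw [hb3] at hb2
      refine ⟨b, hb2, ?_, a, (hA a).2 ⟨x, hx, ha⟩, hb⟩
      intro hbA
      obtain ⟨y, _, hy⟩ := (hA b).1 hbA
      rw [hb2] at hy
      exact absurd hy (by simp)
    -- the remaining vertices
    obtain ⟨Bs, hBs⟩ : ∃ Bs : Finset (Fin m), ∀ b, b ∈ Bs ↔ ∃ q, H.Adj v0 q ∧ f b = Sum.inl (β T q) :=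
      ⟨Finset.univ.filter (fun b => ∃ q, H.Adj v0 q ∧ f b = Sum.inl (β T q)), fun b => by simp⟩
    have hBcard : Bs.card ≤ d := by
      have h1 : (Bs.image f) ⊆ T.image (fun i : Fin w =>
        (Sum.inl i : Fin w ⊕ (Finset (Fin w) × Fin m))) := by
        intro b hb
        rw [Finset.mem_image] at hb
        obtain ⟨b', hb', rfl⟩ := hb
        obtain ⟨q, hq, hq2⟩ := (hBs b').1 hb'
        rw [hq2]
        exact Finset.mem_image_of_mem _ ((hβ T hTd).1 q hq)
      have h2 := Finset.card_le_card h1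
      rw [Finset.card_image_of_injective _ hf, Finset.card_image_of_injective _ Sum.inl_injective,
        hTd] at h2
      exact h2
    obtain ⟨R, hR⟩ : ∃ R : Finset (Fin m), ∀ z, z ∈ R ↔ z ∉ X ∧ ∀ x ∈ X, ¬ H.Adj x z :=
      ⟨Finset.univ.filter (fun z => z ∉ X ∧ ∀ x ∈ X, ¬ H.Adj x z), fun z => by simp⟩
    obtain ⟨Z, hZ⟩ : ∃ Z : Finset (Fin m), ∀ z, z ∈ Z ↔ z ∉ A ∧ z ∉ Bs :=
      ⟨Finset.univ.filter (fun z => z ∉ A ∧ z ∉ Bs), fun z => by simp⟩
    -- `X`, the neighbourhood of `v0` and `R` partition the vertex set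
    have hcount : X.card + d + R.card = m := by
      have h1 : (Finset.univ : Finset (Fin m)) = (X ∪ H.neighborFinset v0) ∪ R := by
        ext y
        simp only [Finset.mem_univ, Finset.mem_union, true_iff, SimpleGraph.mem_neighborFinset]
        by_cases hy : y ∈ X
        · exact Or.inl (Or.inl hy)
        · by_cases hy2 : ∃ x ∈ X, H.Adj x y
          · exact Or.inl (Or.inr ((hN v0 hv0 hv0X y).2 ⟨hy, hy2⟩))
          · push Not at hy2
            exact Or.inr ((hR y).2 ⟨hy, hy2⟩)
      have h2 : Disjoint X (H.neighborFinset v0) := by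
        rw [Finset.disjoint_left]
        intro y hy hy2
        rw [SimpleGraph.mem_neighborFinset] at hy2
        exact hv0X y hy hy2.symm
      have h3 : Disjoint (X ∪ H.neighborFinset v0) R := by
        rw [Finset.disjoint_left]
        intro y hy hy2
        obtain ⟨h4, h5⟩ := (hR y).1 hy2
        rw [Finset.mem_union, SimpleGraph.mem_neighborFinset] at hy
        rcases hy with hy | hy
        · exact h4 hy
        · obtain ⟨_, x, hx, hxy⟩ := (hN v0 hv0 hv0X y).1 hy
          exact h5 x hx hxy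
      have h4 := congrArg Finset.card h1
      rw [Finset.card_union_of_disjoint h3, Finset.card_union_of_disjoint h2,
        SimpleGraph.card_neighborFinset_eq_degree, hreg, Finset.card_univ, Fintype.card_fin] at h4
      exact h4.symm
    have hcount2 : m ≤ A.card + Bs.card + Z.card := by
      have h1 : (Finset.univ : Finset (Fin m)) ⊆ (A ∪ Bs) ∪ Z := by
        intro y _
        simp only [Finset.mem_union]
        by_cases hy : y ∈ A
        · exact Or.inl (Or.inl hy)
        · by_cases hy2 : y ∈ Bs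
          · exact Or.inl (Or.inr hy2)
          · exact Or.inr ((hZ y).2 ⟨hy, hy2⟩)
      have h2 := Finset.card_le_card h1
      rw [Finset.card_univ, Fintype.card_fin] at h2
      exact le_trans h2 (le_trans (Finset.card_union_le _ _)
        (Nat.add_le_add_right (Finset.card_union_le _ _) _))
    have hZA : ∀ z ∈ Z, ∀ a ∈ A, ¬ H.Adj a z := by
      intro z hz a ha haz
      obtain ⟨h1, h2⟩ := (hZ z).1 hz
      rcases hAN a ha z haz with h | ⟨q, hq, hq2⟩
      · exact h1 h
      · exact h2 ((hBs z).2 ⟨q, hq, hq2⟩)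
    have hRpos : 0 < R.card := Finset.card_pos.2 ⟨v0, (hR v0).2 ⟨hv0, hv0X⟩⟩
    have hZpos : Z.Nonempty := by
      rw [← Finset.card_pos]; omega
    have hAfar : Far H A := by
      obtain ⟨z, hz⟩ := hZpos
      refine ⟨⟨u0, (hA u0).2 ⟨x0, hx0, hu0⟩⟩, hconn, z, ((hZ z).1 hz).1, hZA z hz⟩
    have hmaxA : ∀ Y, Far H Y → Y.card ≤ A.card := fun Y hY => by
      rw [hAcard]; exact hmax Y hY
    have hZfull : ∀ z ∈ Z, ∃ p, f z = Sum.inr (T, p) ∧ p ∈ R ∧ p ≠ v0 := by
      intro z hz
      have h1 : ∀ i ∈ T, (amal H v0 d β).Adj (f z) (Sum.inl i) := by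
        intro i hi
        obtain ⟨q, hq, hq2⟩ := (hβ T hTd).2.2 i hi
        obtain ⟨b, hb, hbA, hbA2⟩ := hB q hq
        rw [← hq2, ← hb]
        exact hfa z b (hAfar.max hmaxA z b ((hZ z).1 hz).1 (hZA z hz) hbA hbA2)
      obtain ⟨p, hp1, hp2, hp3⟩ := full_nbr htf hβ T hTd (by omega) (f z) h1
      refine ⟨p, hp1, ?_, hp2⟩
      have hpX : p ∉ X := by
        intro h
        exact ((hZ z).1 hz).1 ((hA z).2 ⟨p, h, hp1⟩)
      rw [hR]
      refine ⟨hpX, ?_⟩
      intro x hx hxp
      -- then `p` is a neighbour of `v0`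
      have h2 : H.Adj v0 p := (hN v0 hv0 hv0X p).2 ⟨hpX, x, hx, hxp⟩
      exact (hp3 p h2).ne rfl
    have hfin : Z.card ≤ (R.erase v0).card := by
      have h1 : Z.image f ⊆ (R.erase v0).image (fun p =>
          (Sum.inr (T, p) : Fin w ⊕ (Finset (Fin w) × Fin m))) := by
        intro a ha
        rw [Finset.mem_image] at ha
        obtain ⟨z, hz, rfl⟩ := ha
        obtain ⟨p, hp1, hp2, hp3⟩ := hZfull z hz
        rw [hp1]
        exact Finset.mem_image_of_mem _ (Finset.mem_erase.2 ⟨hp3, hp2⟩)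
      have h2 := Finset.card_le_card h1
      rw [Finset.card_image_of_injective _ hf] at h2
      exact le_trans h2 Finset.card_image_le
    rw [Finset.card_erase_of_mem ((hR v0).2 ⟨hv0, hv0X⟩)] at hfin
    omega
  · push Not at hcase
    apply hnb
    refine ⟨Finset.univ.filter (fun u => ∃ i, f u = Sum.inl i), ?_⟩
    intro u v huv
    have h1 := hfa u v huv
    simp only [Finset.mem_filter, Finset.mem_univ, true_and]
    constructor
    · rintro ⟨i, hi⟩ ⟨j, hj⟩
      rw [hi, hj] at h1
      exact amal_ll htf h1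
    · intro hv
      by_contra hu
      have hv' : ∃ T p, f v = Sum.inr (T, p) := by
        cases h : f v with
        | inl i => exact absurd ⟨i, h⟩ hv
        | inr x => exact ⟨x.1, x.2, rfl⟩
      have hu' : ∃ T p, f u = Sum.inr (T, p) := by
        cases h : f u with
        | inl i => exact absurd ⟨i, h⟩ hu
        | inr x => exact ⟨x.1, x.2, rfl⟩
      obtain ⟨T, p, hp⟩ := hu'
      obtain ⟨T', q, hq⟩ := hv'
      rw [hp, hq] at h1
      obtain ⟨_, _, hpq, hp0, hp1, hq0, hq1⟩ := amal_rr h1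
      have hpX : p ∉ X := fun h => hcase u T p h hp
      have hqX : q ∉ X := fun h => hcase v T' q h hq
      have hpX' : ∀ x ∈ X, ¬ H.Adj x p := fun x hx hxp =>
        hp1 ((hN v0 hv0 hv0X p).2 ⟨hpX, x, hx, hxp⟩)
      have hqX' : ∀ x ∈ X, ¬ H.Adj x q := fun x hx hxq =>
        hq1 ((hN v0 hv0 hv0X q).2 ⟨hqX, x, hx, hxq⟩)
      exact hX.indep htf hc hmax p q hpX hpX' hqX hqX' hpq

end Pool.Agent.Helper28.RS
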