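import Pool.Agent.Helper28.RS.Amal

/-!
# MP_7ef5a1_co: graphs without nontrivial separations
-/

set_option autoImplicit false
open Classical

namespace Pool.Agent.Helper28.RS

variable {m w : ℕ}

/-- `f` is a copy of `H` in `G` -/
def Copy {V : Type} (H : SimpleGraph (Fin m)) (G : SimpleGraph V) (f : Fin m → V) : Prop :=
  Function.Injective f ∧ ∀ u v, H.Adj u v → G.Adj (f u) (f v)

/-- the vertices dominating `v` -/
noncomputable def dom (H : SimpleGraph (Fin m)) (v : Fin m) : Finset (Fin m) :=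
  Finset.univ.filter (fun y => y ≠ v ∧ ∀ u, H.Adj v u → H.Adj y u)

/-- an independent set of at most `2 δ - 1` vertices whose removal leaves at least two components,
each of them with at least two vertices and with at most `δ` neighbours -/
def BadSep (H : SimpleGraph (Fin m)) (S : Finset (Fin m)) : Prop :=
  (∀ u ∈ S, ∀ v ∈ S, ¬ H.Adj u v) ∧ S.card ≤ 2 * (H.minDegree - 1) + 1 ∧
  ¬ (H.induce {v | v ∉ S}).Preconnected ∧
  ∀ u : {v | v ∉ S}, (∃ v, v ∉ S ∧ H.Adj u v) ∧
    (S.filter (fun s => ∃ v : {v | v ∉ S}, (H.induce {v | v ∉ S}).Reachable u v ∧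
      H.Adj v s)).card ≤ H.minDegree

section

variable {H : SimpleGraph (Fin m)} {v0 : Fin m} {d : ℕ} {β : Finset (Fin w) → Fin m → Fin w}

/-- a copy cannot lie in one branch -/
theorem not_one_branch (f : Fin m → Fin w ⊕ (Finset (Fin w) × Fin m)) (hf : Function.Injective f)
    (T : Finset (Fin w)) (h : ∀ u, ∃ q, q ≠ v0 ∧ gm H v0 β T q = f u) : False := by
  choose q hq0 hq using h
  have hinj : Function.Injective q := by
    intro a b hab
    apply hf
    rw [← hq a, ← hq b, hab]
  obtain ⟨a, ha⟩ := (Finite.injective_iff_surjective.1 hinj) v0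
  exact hq0 a ha

/-- a vertex of the amalgam adjacent to all of `T` dominates `v0` -/
theorem full_nbr (htf : TF H) (hβ : Bet H v0 d β) (T : Finset (Fin w)) (hT : T.card = d)
    (hd : 1 ≤ d) (a : Fin w ⊕ (Finset (Fin w) × Fin m))
    (h : ∀ i ∈ T, (amal H v0 d β).Adj a (Sum.inl i)) :
    ∃ p, a = Sum.inr (T, p) ∧ p ≠ v0 ∧ ∀ u, H.Adj v0 u → H.Adj p u := by
  have hne : T.Nonempty := by
    rw [← Finset.card_pos]; omega
  obtain ⟨i0, hi0⟩ := hne
  cases a with
  | inl j => exact absurd (h i0 hi0) (amal_ll htf)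
  | inr x =>
    obtain ⟨T', p⟩ := x
    have h1 := amal_rl hβ (h i0 hi0)
    have hTT : T = T' := by
      apply Finset.eq_of_subset_of_card_le
      · intro i hi
        exact (amal_rl hβ (h i hi)).2.1
      · rw [h1.1, hT]
    subst hTT
    refine ⟨p, rfl, h1.2.2.1, ?_⟩
    intro u hu
    obtain ⟨_, _, _, _, q, hq1, hq2, hq3⟩ := amal_rl hβ (h (β T u) ((hβ T hT).1 u hu))
    rw [(hβ T hT).2.1 u q hu hq1 hq2.symm]
    exact hq3

end

theorem sup_free (H : SimpleGraph (Fin m)) (htf : TF H) (hm : 0 < m) (hδ : 1 ≤ H.minDegree)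
    (hw : w = 2 * (H.minDegree - 1) + 1) (hno : ¬ ∃ S, BadSep H S) :
    ∃ v0, H.degree v0 = H.minDegree ∧ ∀ β : Finset (Fin w) → Fin m → Fin w,
      Bet H v0 H.minDegree β → ¬ ∃ f, Copy H (amal H v0 H.minDegree β) f := by
  have : Nonempty (Fin m) := ⟨⟨0, hm⟩⟩
  obtain ⟨x0, hx0⟩ := H.exists_minimal_degree_vertex
  obtain ⟨v0, hv0, hmin⟩ := Finset.exists_min_image
    (Finset.univ.filter (fun v => H.degree v = H.minDegree)) (fun v => (dom H v).card)
    ⟨x0, by simp [hx0]⟩
  rw [Finset.mem_filter] at hv0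
  refine ⟨v0, hv0.2, ?_⟩
  rintro β hβ ⟨f, hf, hfa⟩
  apply hno
  obtain ⟨d, hd⟩ : ∃ d, d = H.minDegree := ⟨_, rfl⟩
  rw [← hd] at hfa hβ hw hδ hmin
  obtain ⟨S, hS⟩ : ∃ S : Finset (Fin m), ∀ u, u ∈ S ↔ ∃ i, f u = Sum.inl i :=
    ⟨Finset.univ.filter (fun u => ∃ i, f u = Sum.inl i), fun u => by simp⟩
  have hout : ∀ u, u ∉ S → ∃ x : Finset (Fin w) × Fin m, f u = Sum.inr x := by
    intro u hu
    cases h : f u with
    | inl i => exact absurd ((hS u).2 ⟨i, h⟩) hu
    | inr x => exact ⟨x, rfl⟩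
  -- every vertex has a neighbour
  have hnb : ∀ u, ∃ v, H.Adj u v := by
    intro u
    have h1 := H.minDegree_le_degree u
    have h2 : 0 < (H.neighborFinset u).card := by
      rw [SimpleGraph.card_neighborFinset_eq_degree]; omega
    obtain ⟨v, hv⟩ := Finset.card_pos.1 h2
    exact ⟨v, (SimpleGraph.mem_neighborFinset _ _ _).1 hv⟩
  have hind : ∀ u ∈ S, ∀ v ∈ S, ¬ H.Adj u v := by
    intro u hu v hv huv
    obtain ⟨i, hi⟩ := (hS u).1 hu
    obtain ⟨j, hj⟩ := (hS v).1 hv
    have := hfa u v huv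
    rw [hi, hj] at this
    exact amal_ll htf this
  have hcard : S.card ≤ 2 * (H.minDegree - 1) + 1 := by
    rw [← hd, ← hw]
    have h1 : ∀ u ∈ S, ∃ i, f u = Sum.inl i := fun u hu => (hS u).1 hu
    have h2 : S.card ≤ (Finset.univ.image (fun i : Fin w =>
        (Sum.inl i : Fin w ⊕ (Finset (Fin w) × Fin m)))).card := by
      refine Finset.card_le_card_of_injOn f ?_ (fun a _ b _ h => hf h)
      intro u hu
      obtain ⟨i, hi⟩ := h1 u hu
      rw [hi]
      simp
    refine le_trans h2 (le_trans Finset.card_image_le ?_)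
    simp
  -- the common index along edges
  have hstep : ∀ u v T T' p q, f u = Sum.inr (T, p) → f v = Sum.inr (T', q) → H.Adj u v →
      T = T' := by
    intro u v T T' p q h1 h2 huv
    have := hfa u v huv
    rw [h1, h2] at this
    exact (amal_rr this).1
  have hreach : ∀ u v : {v | v ∉ S}, (H.induce {v | v ∉ S}).Reachable u v →
      ∀ T p, f u = Sum.inr (T, p) → ∃ q, f v = Sum.inr (T, q) := by
    intro u v huv T p hT
    rw [SimpleGraph.reachable_iff_reflTransGen] at huv
    induction huv with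
    | refl => exact ⟨p, hT⟩
    | @tail b c _ hbc ih =>
      obtain ⟨q, hq⟩ := ih
      obtain ⟨⟨T', r⟩, hr⟩ := hout c.1 c.2
      have : T = T' := hstep b.1 c.1 T T' q r hq hr hbc
      rw [this]
      exact ⟨r, hr⟩
  have hTd : ∀ u T p, f u = Sum.inr (T, p) → T.card = d := by
    intro u T p h
    obtain ⟨v, hv⟩ := hnb u
    have := hfa u v hv
    rw [h] at this
    exact (amal_nbr hβ this).1
  have hfil : ∀ u : {v | v ∉ S}, (S.filter (fun s => ∃ v : {v | v ∉ S},
      (H.induce {v | v ∉ S}).Reachable u v ∧ H.Adj v s)).card ≤ d := by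
    intro u
    obtain ⟨⟨T, p⟩, hT⟩ := hout u.1 u.2
    rw [← hTd u.1 T p hT]
    have h2 : (S.filter (fun s => ∃ v : {v | v ∉ S},
      (H.induce {v | v ∉ S}).Reachable u v ∧ H.Adj v s)).card ≤ (T.image (fun i : Fin w =>
        (Sum.inl i : Fin w ⊕ (Finset (Fin w) × Fin m)))).card := by
      refine Finset.card_le_card_of_injOn f ?_ (fun a _ b _ h => hf h)
      intro s hs
      rw [Finset.coe_filter] at hs
      obtain ⟨hs, v, hv, hvs⟩ := hs
      obtain ⟨i, hi⟩ := (hS s).1 hs
      obtain ⟨q, hq⟩ := hreach u v hv T p hT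
      have := hfa v.1 s hvs
      rw [hq, hi] at this
      rw [hi]
      simpa using (amal_rl hβ this).2.1
    exact le_trans h2 Finset.card_image_le
  refine ⟨S, hind, hcard, ?_, ?_⟩
  · -- not one component
    intro hpc
    obtain ⟨v1, hv1⟩ : ∃ v1, v1 ∉ S := by
      obtain ⟨v, hv⟩ := hnb v0
      by_cases h : v0 ∈ S
      · exact ⟨v, fun h' => hind v0 h v h' hv⟩
      · exact ⟨v0, h⟩
    obtain ⟨⟨T, p1⟩, hT⟩ := hout v1 hv1
    have hTc := hTd _ _ _ hT
    apply not_one_branch (H := H) (v0 := v0) (β := β) f hf T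
    have hall : ∀ u, u ∉ S → ∃ q, f u = Sum.inr (T, q) := fun u hu =>
      hreach ⟨v1, hv1⟩ ⟨u, hu⟩ (hpc _ _) T p1 hT
    intro u
    by_cases hu : u ∈ S
    · obtain ⟨i, hi⟩ := (hS u).1 hu
      obtain ⟨v, hv⟩ := hnb u
      have hvS : v ∉ S := fun h => hind u hu v h hv
      obtain ⟨q, hq⟩ := hall v hvS
      have h1 := hfa v u hv.symm
      rw [hq, hi] at h1
      obtain ⟨_, h2, _, _, q', h3, h4, _⟩ := amal_rl hβ h1
      refine ⟨q', h3.ne', ?_⟩
      rw [hi, ← h4]
      unfold gm
      rw [if_pos h3]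
    · obtain ⟨q, hq⟩ := hall u hu
      obtain ⟨v, hv⟩ := hnb u
      have h1 := hfa u v hv
      rw [hq] at h1
      obtain ⟨_, h2, h3, _⟩ := amal_nbr hβ h1
      refine ⟨q, h2, ?_⟩
      rw [hq]
      unfold gm
      rw [if_neg h3]
  · intro u
    refine ⟨?_, by rw [← hd]; exact hfil u⟩
    by_contra hcon
    push Not at hcon
    obtain ⟨⟨T, p⟩, hT⟩ := hout u.1 u.2
    have hTc := hTd _ _ _ hT
    -- the neighbours of `u` are mapped into `T`
    have h1 : ∀ v ∈ H.neighborFinset u.1, ∃ i ∈ T, f v = Sum.inl i := by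
      intro v hv
      rw [SimpleGraph.mem_neighborFinset] at hv
      have hvS : v ∈ S := by
        by_contra h
        exact hcon v h hv
      obtain ⟨i, hi⟩ := (hS v).1 hvS
      have := hfa _ _ hv
      rw [hT, hi] at this
      exact ⟨i, (amal_rl hβ this).2.1, hi⟩
    have h2 : (H.neighborFinset u.1).image f ⊆ T.image (fun i : Fin w =>
        (Sum.inl i : Fin w ⊕ (Finset (Fin w) × Fin m))) := by
      intro a ha
      rw [Finset.mem_image] at ha
      obtain ⟨v, hv, rfl⟩ := ha
      obtain ⟨i, hi, hi2⟩ := h1 v hv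
      rw [hi2]
      exact Finset.mem_image_of_mem _ hi
    have h3 : ((H.neighborFinset u.1).image f).card = H.degree u.1 := by
      rw [Finset.card_image_of_injective _ hf, SimpleGraph.card_neighborFinset_eq_degree]
    have h4 : (T.image (fun i : Fin w =>
        (Sum.inl i : Fin w ⊕ (Finset (Fin w) × Fin m)))).card = d := by
      rw [Finset.card_image_of_injective _ Sum.inl_injective, hTc]
    have h5 := H.minDegree_le_degree u.1
    have h6 := Finset.card_le_card h2
    have hdeg : H.degree u.1 = H.minDegree := by omega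
    have h7 : (H.neighborFinset u.1).image f = T.image (fun i : Fin w =>
        (Sum.inl i : Fin w ⊕ (Finset (Fin w) × Fin m))) := by
      apply Finset.eq_of_subset_of_card_le h2
      omega
    have h8 : ∀ i ∈ T, ∃ v, H.Adj u.1 v ∧ f v = Sum.inl i := by
      intro i hi
      have : (Sum.inl i : Fin w ⊕ (Finset (Fin w) × Fin m)) ∈ (H.neighborFinset u.1).image f := by
        rw [h7]
        exact Finset.mem_image_of_mem _ hi
      rw [Finset.mem_image] at this
      obtain ⟨v, hv, hv2⟩ := this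
      exact ⟨v, (SimpleGraph.mem_neighborFinset _ _ _).1 hv, hv2⟩
    have h9 := hmin u.1 (by simp [hdeg, hd])
    -- the vertices dominating `u`, and `u`, give vertices dominating `v0`
    have h10 : ∀ z, (∀ v, H.Adj u.1 v → H.Adj z v) → ∃ p, f z = Sum.inr (T, p) ∧ p ≠ v0 ∧
        ∀ x, H.Adj v0 x → H.Adj p x := by
      intro z hz
      refine full_nbr htf hβ T hTc hδ (f z) ?_
      intro i hi
      obtain ⟨v, hv, hv2⟩ := h8 i hi
      rw [← hv2]
      exact hfa z v (hz v hv)
    have h11 : (insert u.1 (dom H u.1)).card ≤ (dom H v0).card := by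
      have h12 : ((insert u.1 (dom H u.1)).image f).card = (insert u.1 (dom H u.1)).card :=
        Finset.card_image_of_injective _ hf
      rw [← h12]
      have h13 : (insert u.1 (dom H u.1)).image f ⊆ (dom H v0).image (fun p =>
          (Sum.inr (T, p) : Fin w ⊕ (Finset (Fin w) × Fin m))) := by
        intro a ha
        rw [Finset.mem_image] at ha
        obtain ⟨z, hz, rfl⟩ := ha
        have hz' : ∀ v, H.Adj u.1 v → H.Adj z v := by
          rw [Finset.mem_insert] at hz
          rcases hz with hz | hz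
          · rw [hz]; exact fun v hv => hv
          · exact (Finset.mem_filter.1 hz).2.2
        obtain ⟨p, hp1, hp2, hp3⟩ := h10 z hz'
        rw [hp1]
        refine Finset.mem_image_of_mem _ ?_
        exact Finset.mem_filter.2 ⟨Finset.mem_univ _, hp2, hp3⟩
      exact le_trans (Finset.card_le_card h13) Finset.card_image_le
    have h14 : u.1 ∉ dom H u.1 := fun h => (Finset.mem_filter.1 h).2.1 rfl
    rw [Finset.card_insert_of_notMem h14] at h11
    omega

end Pool.Agent.Helper28.RS
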