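import Pool.Agent.Helper28.RS.Reg
import Pool.Agent.Helper77.SND.Stmts

/-!
# MP_7ef5a1_co: the amalgam as a critical configuration
-/

set_option autoImplicit false
open Classical

namespace Pool.Agent.Helper28.RS

variable {m : ℕ}

theorem crit_of_amal (H : SimpleGraph (Fin m)) (htf : TF H)
    (h : ∃ v0, H.degree v0 = H.minDegree ∧
      ∀ β : Finset (Fin (2 * (H.minDegree - 1) + 1)) → Fin m → Fin (2 * (H.minDegree - 1) + 1),
      Bet H v0 H.minDegree β → ¬ ∃ f, Copy H (amal H v0 H.minDegree β) f) :
    Pool.Agent.Helper77.SND.Crit H := by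
  obtain ⟨v0, hv0, hfree⟩ := h
  obtain ⟨β, hβ⟩ := exists_bet (w := 2 * (H.minDegree - 1) + 1) H v0 (by omega)
  rw [hv0] at hβ
  have hfr := hfree β hβ
  refine ⟨_, inferInstance, amal H v0 H.minDegree β, Sum.inl, Sum.inl_injective,
    fun i j => amal_ll htf, fun f hf => hfr ⟨f, hf⟩, ?_⟩
  intro T hT
  refine ⟨fun u => if u = v0 then none else some (gm H v0 β T u), ?_, ?_⟩
  · intro u v huv
    by_cases hu : u = v0
    · by_cases hv : v = v0
      · rw [hu, hv]
      · simp only [if_pos hu, if_neg hv] at huv
        exact absurd huv (by simp)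
    · by_cases hv : v = v0
      · simp only [if_pos hv, if_neg hu] at huv
        exact absurd huv (by simp)
      · simp only [if_neg hu, if_neg hv] at huv
        exact gm_inj hβ hT (Option.some.inj huv)
  · intro u v huv
    have hg : ∀ x, H.Adj v0 x → ∃ k ∈ T, gm H v0 β T x = Sum.inl k := by
      intro x hx
      refine ⟨β T x, (hβ T hT).1 x hx, ?_⟩
      unfold gm
      rw [if_pos hx]
    by_cases hu : u = v0
    · subst hu
      have hv : v ≠ u := huv.ne'
      simp only [if_neg hv]
      exact hg v huv
    · by_cases hv : v = v0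
      · subst hv
        simp only [if_neg hu]
        exact hg u huv.symm
      · simp only [if_neg hu, if_neg hv]
        exact amal_adj hβ hT huv hu hv

end Pool.Agent.Helper28.RS
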